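import Pool.Agent.H62R2.CM6.Defs

/-! # Basic facts on CM pairs -/

namespace Pool.Agent.H62R2.CM6

variable {Γ Y : Type*} [Group Γ] [MulAction Γ Y] [Fintype Y] (P : CMPair Γ Y)

open scoped Classical in
/-- The sign of an element: `1` on the type, `-1` off the type. -/
noncomputable def sg (y : Y) : ℤ := if y ∈ P.type then 1 else -1

theorem sg_conj (y : Y) : sg P (P.conj • y) = - sg P y := by
  unfold sg
  by_cases h : y ∈ P.type
  · have h' : P.conj • y ∉ P.type := fun h2 => (P.half y).1 h2 h
    simp [h, h']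
  · have h' : P.conj • y ∈ P.type := (P.half y).2 h
    simp [h, h']

theorem sg_cases (y : Y) : sg P y = 1 ∨ sg P y = -1 := by
  unfold sg; split_ifs <;> simp

theorem sg_of_mem {y : Y} (h : y ∈ P.type) : sg P y = 1 := by
  unfold sg; simp [h]

theorem sg_eq_one_iff {y : Y} : sg P y = 1 ↔ y ∈ P.type := by
  unfold sg; split_ifs with h <;> simp [h]

theorem sg_mul_self (y : Y) : sg P y * sg P y = 1 := by
  rcases sg_cases P y with h | h <;> simp [h]

theorem sg_conj' (g : Γ) (y : Y) : sg P (g • P.conj • y) = - sg P (g • y) := by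
  rw [P.comm, sg_conj]

variable {P}

theorem eq_of_sg (hP : Reduced P) {y z : Y} (h : ∀ g : Γ, sg P (g • y) = sg P (g • z)) : y = z := by
  apply hP
  intro g
  rw [← sg_eq_one_iff, ← sg_eq_one_iff, h g]

theorem conj_conj (hP : Reduced P) (y : Y) : P.conj • P.conj • y = y := by
  apply eq_of_sg hP
  intro g
  rw [sg_conj', P.comm, sg_conj, neg_neg]

theorem conj_ne (y : Y) : P.conj • y ≠ y := by
  intro h
  have h1 := sg_conj P y
  rw [h] at h1
  rcases sg_cases P y with h2 | h2 <;> omega

variable (P)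

/-- Antisymmetric relations. -/
structure Rel (d : Y → ℤ) : Prop where
  odd : ∀ y, d (P.conj • y) = - d y
  bal : ∀ g : Γ, ∑ y, d y * sg P (g • y) = 0

theorem sum_conj (F : Y → ℤ) : ∑ y, F (P.conj • y) = ∑ y, F y :=
  Equiv.sum_comp (MulAction.toPerm P.conj) F

theorem sum_translate (g : Γ) (F : Y → ℤ) : ∑ y, F (g • y) = ∑ y, F y :=
  Equiv.sum_comp (MulAction.toPerm g) F

theorem isHodge_iff (c : Y → ℕ) : IsHodge P c ↔ ∀ g : Γ, ∑ y, (c y : ℤ) * sg P (g • y) = 0 := by
  classical
  unfold IsHodge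
  refine forall_congr' fun g => ?_
  have h : ∑ y, (c y : ℤ) * sg P (g • y)
      = ((∑ y with g • y ∈ P.type, c y : ℕ) : ℤ) - ((∑ y with g • y ∉ P.type, c y : ℕ) : ℤ) := by
    rw [← Finset.sum_filter_add_sum_filter_not Finset.univ (fun y => g • y ∈ P.type)]
    have e1 : ∑ y with g • y ∈ P.type, (c y : ℤ) * sg P (g • y)
        = ((∑ y with g • y ∈ P.type, c y : ℕ) : ℤ) := by
      push_cast
      refine Finset.sum_congr rfl fun y hy => ?_
      rw [sg_of_mem P (Finset.mem_filter.1 hy).2, mul_one]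
    have e2 : ∑ y with g • y ∉ P.type, (c y : ℤ) * sg P (g • y)
        = - ((∑ y with g • y ∉ P.type, c y : ℕ) : ℤ) := by
      push_cast
      rw [← Finset.sum_neg_distrib]
      refine Finset.sum_congr rfl fun y hy => ?_
      have : sg P (g • y) = -1 := by
        rcases sg_cases P (g • y) with h | h
        · exact absurd ((sg_eq_one_iff P).1 h) (Finset.mem_filter.1 hy).2
        · exact h
      rw [this]; ring
    rw [e1, e2]; ring
  constructor
  · intro hc
    rw [h, hc]; ring
  · intro hc
    rw [hc] at h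
    omega

variable {P}

theorem sum_bar (g : Γ) (c : Y → ℤ) :
    ∑ y, c (P.conj • y) * sg P (g • y) = - ∑ y, c y * sg P (g • y) := by
  have h := sum_conj P (fun y => c y * sg P (g • y))
  simp only [sg_conj'] at h
  rw [← h, ← Finset.sum_neg_distrib]
  refine Finset.sum_congr rfl fun y _ => ?_
  ring

theorem rel_of_isHodge (hP : Reduced P) {c : Y → ℕ} (hc : IsHodge P c) :
    Rel P (fun y => (c y : ℤ) - bar P c y) where
  odd y := by
    simp only [bar, conj_conj hP]; ring
  bal g := by
    have h1 := (isHodge_iff P c).1 hc g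
    have h2 := sum_bar (P := P) g (fun y => (c y : ℤ))
    simp only [bar, sub_mul, Finset.sum_sub_distrib]
    rw [h2, h1]; ring

theorem Rel.translate {d : Y → ℤ} (hd : Rel P d) (k : Γ) : Rel P (fun y => d (k • y)) where
  odd y := by rw [P.comm, hd.odd]
  bal g := by
    have h := sum_translate k (fun y => d y * sg P ((g * k⁻¹) • y))
    rw [hd.bal] at h
    rw [← h]
    refine Finset.sum_congr rfl fun y _ => ?_
    simp [mul_smul]

theorem Rel.lin {d e : Y → ℤ} (hd : Rel P d) (he : Rel P e) (p q : ℤ) :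
    Rel P (fun y => p * d y + q * e y) where
  odd y := by rw [hd.odd, he.odd]; ring
  bal g := by
    have h1 := hd.bal g
    have h2 := he.bal g
    have : ∑ y, (p * d y + q * e y) * sg P (g • y)
        = p * (∑ y, d y * sg P (g • y)) + q * ∑ y, e y * sg P (g • y) := by
      rw [Finset.mul_sum, Finset.mul_sum, ← Finset.sum_add_distrib]
      refine Finset.sum_congr rfl fun y _ => ?_
      ring
    rw [this, h1, h2]; ring

open scoped Classical in
/-- The type as a finset. -/
noncomputable def Φ (P : CMPair Γ Y) : Finset Y := Finset.univ.filter (· ∈ P.type)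

theorem mem_Φ {y : Y} : y ∈ Φ P ↔ y ∈ P.type := by
  classical
  simp [Φ]

theorem sg_Φ {y : Y} (h : y ∈ Φ P) : sg P y = 1 := sg_of_mem P (mem_Φ.1 h)

theorem mem_or (y : Y) : y ∈ Φ P ∨ P.conj • y ∈ Φ P := by
  rw [mem_Φ, mem_Φ]
  by_cases h : y ∈ P.type
  · exact Or.inl h
  · exact Or.inr ((P.half y).2 h)

/-- Sums of even functions. -/
theorem sum_even {F : Y → ℤ} (hF : ∀ y, F (P.conj • y) = F y) : ∑ y, F y = 2 * ∑ y ∈ Φ P, F y := by
  classical
  rw [← Finset.sum_filter_add_sum_filter_not Finset.univ (fun y => y ∈ P.type)]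
  have h : ∑ y with y ∉ P.type, F y = ∑ y with y ∈ P.type, F y := by
    refine Finset.sum_bij' (fun y _ => P.conj • y) (fun y _ => (P.conj)⁻¹ • y) ?_ ?_ ?_ ?_ ?_
    · intro y hy
      simp only [Finset.mem_filter, Finset.mem_univ, true_and] at hy ⊢
      exact (P.half y).2 hy
    · intro y hy
      simp only [Finset.mem_filter, Finset.mem_univ, true_and] at hy ⊢
      have h := P.half ((P.conj)⁻¹ • y)
      rw [smul_inv_smul] at h
      exact h.1 hy
    · intro y _; simp
    · intro y _; simp
    · intro y _; exact (hF y).symm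
  rw [h]
  have : (Finset.univ.filter (fun y => y ∈ P.type)) = Φ P := by
    ext y; simp [mem_Φ]
  rw [this]; ring

theorem card_eq : Fintype.card Y = 2 * (Φ P).card := by
  have h := sum_even (P := P) (F := fun _ => 1) (fun _ => rfl)
  simp only [Finset.sum_const, Finset.card_univ, nsmul_eq_mul, mul_one] at h
  exact_mod_cast h

theorem Rel.bal' {d : Y → ℤ} (hd : Rel P d) (g : Γ) : ∑ y ∈ Φ P, d y * sg P (g • y) = 0 := by
  have h := hd.bal g
  rw [sum_even (P := P)] at h
  · omega
  · intro y
    rw [hd.odd, sg_conj']; ring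

/-- A relation is determined by its values on the type. -/
theorem Rel.eq_zero {d : Y → ℤ} (hd : ∀ y, d (P.conj • y) = - d y) (h : ∀ y ∈ Φ P, d y = 0) (y : Y) :
    d y = 0 := by
  rcases mem_or (P := P) y with h1 | h1
  · exact h y h1
  · have := h _ h1
    rw [hd] at this
    omega


end Pool.Agent.H62R2.CM6
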