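import Pool.Agent.H62R2.CM6.Rank1

/-! # The blocks of a generating relation -/

set_option linter.unusedSectionVars false

namespace Pool.Agent.H62R2.CM6

variable {Γ Y : Type*} [Group Γ] [MulAction Γ Y] [Fintype Y] {P : CMPair Γ Y} {r : Y → ℤ}

theorem term_cases {a : ℕ} (ha : a ≠ 0) (g : Γ) {x : Y} (hx : x ∈ blk P r a) :
    (r x).sign * sg P (g • x) = 1 ∨ (r x).sign * sg P (g • x) = -1 := by
  rcases sign_cases (blk_ne ha hx) with h | h <;> rcases sg_cases P (g • x) with h' | h' <;>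
    rw [h, h'] <;> norm_num

theorem blkSum_abs (hr : Rel P r) (hε : ∀ g : Γ, ∃ ε : ℤ, (ε = 1 ∨ ε = -1) ∧ ∀ y, r (g • y) = ε * r y)
    (a : ℕ) (g : Γ) : |blkSum P r a g| = |blkSum P r a 1| := by
  obtain ⟨ε, h1, h2⟩ := hε g
  rw [blkSum_eq hr a g h1 h2, abs_mul]
  rcases h1 with rfl | rfl <;> simp

/-- For two letters of a block there is `g` for which the two terms cancel, and `g` for which
they agree. -/
theorem exists_cancel (hP : Reduced P) {a : ℕ} (ha : a ≠ 0) {x y : Y} (hx : x ∈ blk P r a)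
    (hy : y ∈ blk P r a) (hxy : x ≠ y) :
    (∃ g : Γ, (r x).sign * sg P (g • x) + (r y).sign * sg P (g • y) = 0) ∧
    (∃ g : Γ, (r x).sign * sg P (g • x) - (r y).sign * sg P (g • y) = 0) := by
  have hxΦ : x ∈ Φ P := (Finset.mem_filter.1 hx).1
  have hyΦ : y ∈ Φ P := (Finset.mem_filter.1 hy).1
  obtain ⟨g, hg⟩ := exists_sep hP hxy
  rcases sign_cases (blk_ne ha hx) with h | h <;> rcases sign_cases (blk_ne ha hy) with h' | h' <;>
    rw [h, h']
  · exact ⟨⟨g, by rw [hg]; ring⟩, ⟨1, by rw [one_smul, one_smul, sg_Φ hxΦ, sg_Φ hyΦ]; ring⟩⟩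
  · exact ⟨⟨1, by rw [one_smul, one_smul, sg_Φ hxΦ, sg_Φ hyΦ]; ring⟩, ⟨g, by rw [hg]; ring⟩⟩
  · exact ⟨⟨1, by rw [one_smul, one_smul, sg_Φ hxΦ, sg_Φ hyΦ]; ring⟩, ⟨g, by rw [hg]; ring⟩⟩
  · exact ⟨⟨g, by rw [hg]; ring⟩, ⟨1, by rw [one_smul, one_smul, sg_Φ hxΦ, sg_Φ hyΦ]; ring⟩⟩

theorem blk_bound (hP : Reduced P) (hr : Rel P r)
    (hε : ∀ g : Γ, ∃ ε : ℤ, (ε = 1 ∨ ε = -1) ∧ ∀ y, r (g • y) = ε * r y)
    {a : ℕ} (ha : a ≠ 0) (hc : 2 ≤ (blk P r a).card) :
    |blkSum P r a 1| ≤ ((blk P r a).card : ℤ) - 2 := by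
  obtain ⟨x, hx, y, hy, hxy⟩ := Finset.one_lt_card.1 (show 1 < (blk P r a).card by omega)
  obtain ⟨⟨g, hg⟩, -⟩ := exists_cancel hP ha hx hy hxy
  rw [← blkSum_abs hr hε a g]
  exact abs_sum_le (fun z hz => term_cases ha g hz) hx hy hxy hg

theorem blk_card_ne_two (hP : Reduced P) (hr : Rel P r)
    (hε : ∀ g : Γ, ∃ ε : ℤ, (ε = 1 ∨ ε = -1) ∧ ∀ y, r (g • y) = ε * r y)
    {a : ℕ} (ha : a ≠ 0) : (blk P r a).card ≠ 2 := by
  classical
  intro hc
  have h0 := blk_bound hP hr hε ha (by omega)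
  rw [hc] at h0
  obtain ⟨x, y, hxy, hxy2⟩ := Finset.card_eq_two.1 hc
  have hx : x ∈ blk P r a := by rw [hxy2]; simp
  have hy : y ∈ blk P r a := by rw [hxy2]; simp
  obtain ⟨-, ⟨g, hg⟩⟩ := exists_cancel hP ha hx hy hxy
  have h1 := blkSum_abs hr hε a g
  have h2 : blkSum P r a g = (r x).sign * sg P (g • x) + (r y).sign * sg P (g • y) := by
    rw [blkSum, hxy2, Finset.sum_pair hxy]
  have h3 := term_cases ha g hx
  have h4 : |blkSum P r a 1| = 0 := le_antisymm (by norm_num at h0 ⊢; exact h0) (abs_nonneg _)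
  rw [h4, abs_eq_zero] at h1
  omega

theorem blk_parity {a : ℕ} (ha : a ≠ 0) (g : Γ) :
    ∃ m : ℤ, blkSum P r a g = ((blk P r a).card : ℤ) - 2 * m := by
  classical
  refine ⟨∑ x ∈ blk P r a, (if (r x).sign * sg P (g • x) = 1 then 0 else 1), ?_⟩
  have h : ((blk P r a).card : ℤ) = ∑ x ∈ blk P r a, 1 := by simp
  rw [h, Finset.mul_sum, ← Finset.sum_sub_distrib, blkSum]
  refine Finset.sum_congr rfl fun x hx => ?_
  rcases term_cases ha g hx with h1 | h1
  · rw [if_pos h1, h1]; ring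
  · rw [if_neg (by rw [h1]; norm_num), h1]; ring

theorem blk_abs_le {a : ℕ} (ha : a ≠ 0) (g : Γ) : |blkSum P r a g| ≤ ((blk P r a).card : ℤ) := by
  calc |blkSum P r a g| ≤ ∑ x ∈ blk P r a, |(r x).sign * sg P (g • x)| :=
        Finset.abs_sum_le_sum_abs _ _
    _ ≤ ∑ x ∈ blk P r a, (1 : ℤ) := by
        refine Finset.sum_le_sum fun z hz => ?_
        rcases term_cases ha g hz with h | h <;> rw [h] <;> norm_num
    _ = _ := by simp

theorem blk_single (hP : Reduced P)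
    (hr : Rel P r) (hε : ∀ g : Γ, ∃ ε : ℤ, (ε = 1 ∨ ε = -1) ∧ ∀ y, r (g • y) = ε * r y)
    {a b : ℕ} (ha : a ≠ 0) (hb : b ≠ 0) (hca : (blk P r a).card = 1) (hcb : (blk P r b).card = 1) :
    a = b := by
  classical
  obtain ⟨x, hx⟩ := Finset.card_eq_one.1 hca
  obtain ⟨y, hy⟩ := Finset.card_eq_one.1 hcb
  have hxm : x ∈ blk P r a := by rw [hx]; simp
  have hym : y ∈ blk P r b := by rw [hy]; simp
  have hxΦ : x ∈ Φ P := (Finset.mem_filter.1 hxm).1
  have hyΦ : y ∈ Φ P := (Finset.mem_filter.1 hym).1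
  have hxy : x = y := by
    apply eq_of_sg hP
    intro g
    obtain ⟨ε, h1, h2⟩ := hε g
    have ea := blkSum_eq hr a g h1 h2
    have eb := blkSum_eq hr b g h1 h2
    rw [blkSum, blkSum, hx, Finset.sum_singleton, Finset.sum_singleton, one_smul, sg_Φ hxΦ] at ea
    rw [blkSum, blkSum, hy, Finset.sum_singleton, Finset.sum_singleton, one_smul, sg_Φ hyΦ] at eb
    have k1 : sg P (g • x) = ε := by
      rcases sign_cases (blk_ne ha hxm) with h | h <;> rw [h] at ea <;> linarith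
    have k2 : sg P (g • y) = ε := by
      rcases sign_cases (blk_ne hb hym) with h | h <;> rw [h] at eb <;> linarith
    rw [k1, k2]
  have e1 := (Finset.mem_filter.1 hxm).2
  have e2 := (Finset.mem_filter.1 hym).2
  rw [← e1, ← e2, hxy]

/-- The nonzero absolute values of the coefficients. -/
noncomputable def vals (P : CMPair Γ Y) (r : Y → ℤ) : Finset ℕ :=
  ((Φ P).image (fun x => (r x).natAbs)).erase 0

theorem sum_vals (F : Y → ℤ) (hF : ∀ x, r x = 0 → F x = 0) :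
    ∑ x ∈ Φ P, F x = ∑ a ∈ vals P r, ∑ x ∈ blk P r a, F x := by
  classical
  have h1 : ∑ x ∈ Φ P, F x = ∑ x ∈ (Φ P).filter (fun x => r x ≠ 0), F x := by
    rw [Finset.sum_filter_of_ne]
    intro x _ hx h
    exact hx (hF x h)
  rw [h1, ← Finset.sum_fiberwise_of_maps_to (t := vals P r) (g := fun x => (r x).natAbs)]
  · refine Finset.sum_congr rfl fun a ha => ?_
    refine Finset.sum_congr ?_ fun _ _ => rfl
    ext x
    simp only [blk, Finset.mem_filter]
    constructor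
    · rintro ⟨⟨h1, _⟩, h3⟩; exact ⟨h1, h3⟩
    · rintro ⟨h1, h3⟩
      refine ⟨⟨h1, ?_⟩, h3⟩
      intro h
      rw [h] at h3
      exact (Finset.mem_erase.1 ha).1 h3.symm
  · intro x hx
    obtain ⟨hx1, hx2⟩ := Finset.mem_filter.1 hx
    refine Finset.mem_erase.2 ⟨?_, Finset.mem_image.2 ⟨x, hx1, rfl⟩⟩
    exact Int.natAbs_ne_zero.2 hx2

theorem blk_coeff {a : ℕ} {x : Y} (hx : x ∈ blk P r a) : r x = a * (r x).sign := by
  have h := (Finset.mem_filter.1 hx).2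
  rw [← h]
  have := Int.sign_mul_natAbs (r x)
  linarith

theorem sum_blkSum (hr : Rel P r) : ∑ a ∈ vals P r, (a : ℤ) * blkSum P r a 1 = 0 := by
  have h1 := hr.bal' 1
  rw [sum_vals (r := r)] at h1
  · rw [← h1]
    refine Finset.sum_congr rfl fun a _ => ?_
    rw [blkSum, Finset.mul_sum]
    refine Finset.sum_congr rfl fun x hx => ?_
    have h2 := blk_coeff hx
    calc (a : ℤ) * ((r x).sign * sg P ((1 : Γ) • x)) = (a * (r x).sign) * sg P ((1 : Γ) • x) := by ring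
      _ = _ := by rw [← h2]
  · intro x hx; rw [hx]; ring

theorem size_eq (hr : Rel P r) : (size (pos r) : ℤ) = ∑ a ∈ vals P r, (a : ℤ) * (blk P r a).card := by
  rw [size_pos hr]
  push_cast
  have h1 := sum_vals (P := P) (r := r) (fun x => |r x|) (fun x hx => by simp [hx])
  rw [h1]
  refine Finset.sum_congr rfl fun a _ => ?_
  have : ∀ x ∈ blk P r a, |r x| = (a : ℤ) := by
    intro x hx
    have h := (Finset.mem_filter.1 hx).2
    rw [Int.abs_eq_natAbs, h]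
  rw [Finset.sum_congr rfl this, Finset.sum_const]
  simp; ring

theorem card_vals : ∑ a ∈ vals P r, (blk P r a).card ≤ (Φ P).card := by
  classical
  have h1 := sum_vals (P := P) (r := r) (fun x => if r x = 0 then 0 else 1) (fun x hx => by simp [hx])
  have h2 : ∑ x ∈ Φ P, (if r x = 0 then (0 : ℤ) else 1) ≤ (Φ P).card := by
    calc ∑ x ∈ Φ P, (if r x = 0 then (0 : ℤ) else 1) ≤ ∑ x ∈ Φ P, (1 : ℤ) :=
          Finset.sum_le_sum fun x _ => by split_ifs <;> norm_num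
      _ = _ := by simp
  have h3 : ∑ a ∈ vals P r, ∑ x ∈ blk P r a, (if r x = 0 then (0 : ℤ) else 1)
      = ∑ a ∈ vals P r, ((blk P r a).card : ℤ) := by
    refine Finset.sum_congr rfl fun a ha => ?_
    have ha0 : a ≠ 0 := (Finset.mem_erase.1 ha).1
    have : ∀ x ∈ blk P r a, (if r x = 0 then (0 : ℤ) else 1) = 1 := by
      intro x hx
      rw [if_neg (blk_ne ha0 hx)]
    rw [Finset.sum_congr rfl this]; simp
  rw [h3] at h1
  rw [h1] at h2
  exact_mod_cast h2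

theorem blk_pos {a : ℕ} (ha : a ∈ vals P r) : 1 ≤ (blk P r a).card := by
  obtain ⟨_, h2⟩ := Finset.mem_erase.1 ha
  obtain ⟨x, hx, hx2⟩ := Finset.mem_image.1 h2
  exact Finset.card_pos.2 ⟨x, Finset.mem_filter.2 ⟨hx, hx2⟩⟩

theorem natAbs_mem (hr : Rel P r) (y : Y) : (r y).natAbs = 0 ∨ (r y).natAbs ∈ vals P r := by
  classical
  by_cases h : (r y).natAbs = 0
  · exact Or.inl h
  · right
    rcases mem_or (P := P) y with hy | hy
    · exact Finset.mem_erase.2 ⟨h, Finset.mem_image.2 ⟨y, hy, rfl⟩⟩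
    · refine Finset.mem_erase.2 ⟨h, Finset.mem_image.2 ⟨_, hy, ?_⟩⟩
      rw [hr.odd, Int.natAbs_neg]

end Pool.Agent.H62R2.CM6
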