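import Pool.Agent.H62R2.CM6.Rank

/-! # Six letters in a cube: the rank two case -/

set_option linter.unusedSectionVars false

namespace Pool.Agent.H62R2.CM6

variable {Γ Y : Type*} [Group Γ] [MulAction Γ Y] [Fintype Y] {P : CMPair Γ Y}

/-- The point of the cube given by a letter. -/
noncomputable def pt (P : CMPair Γ Y) (g₁ g₂ g₃ : Γ) (y : Y) : ℤ × ℤ × ℤ :=
  (sg P (g₁ • y), sg P (g₂ • y), sg P (g₃ • y))

/-- Six letters, whose points are all points of the cube except `(1,1,1)` and `u`. -/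
structure Frame (P : CMPair Γ Y) (g₁ g₂ g₃ : Γ) (u : ℤ × ℤ × ℤ) : Prop where
  sp : Sp P g₁ g₂ g₃
  card : (Φ P).card = 6
  miss1 : ∀ x ∈ Φ P, pt P g₁ g₂ g₃ x ≠ (1, 1, 1)
  missu : ∀ x ∈ Φ P, pt P g₁ g₂ g₃ x ≠ u
  has : ∀ a b c : ℤ, (a = 1 ∨ a = -1) → (b = 1 ∨ b = -1) → (c = 1 ∨ c = -1) →
    (a, b, c) ≠ ((1, 1, 1) : ℤ × ℤ × ℤ) → (a, b, c) ≠ u → ∃ x ∈ Φ P, pt P g₁ g₂ g₃ x = (a, b, c)

theorem pt_inj (hP : Reduced P) {g₁ g₂ g₃ : Γ} (hsp : Sp P g₁ g₂ g₃) {x y : Y} (hx : x ∈ Φ P)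
    (hy : y ∈ Φ P) (h : pt P g₁ g₂ g₃ x = pt P g₁ g₂ g₃ y) : x = y := by
  apply eq_of_sg hP
  intro g
  obtain ⟨a, b, c, d, habcd⟩ := hsp g
  have h1 := habcd x
  have h2 := habcd y
  simp only [pt, Prod.mk.injEq] at h
  rw [h.1, h.2.1, h.2.2, sg_Φ hx] at h1
  rw [sg_Φ hy, ← h1] at h2
  exact_mod_cast h2.symm

theorem Sp.swap12 {g₁ g₂ g₃ : Γ} (h : Sp P g₁ g₂ g₃) : Sp P g₂ g₁ g₃ := by
  intro g
  obtain ⟨a, b, c, d, h⟩ := h g
  exact ⟨a, c, b, d, fun y => by rw [h]; ring⟩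

theorem Sp.swap23 {g₁ g₂ g₃ : Γ} (h : Sp P g₁ g₂ g₃) : Sp P g₁ g₃ g₂ := by
  intro g
  obtain ⟨a, b, c, d, h⟩ := h g
  exact ⟨a, b, d, c, fun y => by rw [h]; ring⟩

theorem Frame.swap12 {g₁ g₂ g₃ : Γ} {a b c : ℤ} (h : Frame P g₁ g₂ g₃ (a, b, c)) :
    Frame P g₂ g₁ g₃ (b, a, c) where
  sp := h.sp.swap12
  card := h.card
  miss1 x hx := by
    have := h.miss1 x hx
    simp only [pt, ne_eq, Prod.mk.injEq] at this ⊢
    tauto
  missu x hx := by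
    have := h.missu x hx
    simp only [pt, ne_eq, Prod.mk.injEq] at this ⊢
    tauto
  has a' b' c' ha hb hc h1 hu := by
    obtain ⟨x, hx, hx2⟩ := h.has b' a' c' hb ha hc
      (by simp only [ne_eq, Prod.mk.injEq] at h1 ⊢; tauto)
      (by simp only [ne_eq, Prod.mk.injEq] at hu ⊢; tauto)
    refine ⟨x, hx, ?_⟩
    simp only [pt, Prod.mk.injEq] at hx2 ⊢
    tauto

theorem Frame.swap23 {g₁ g₂ g₃ : Γ} {a b c : ℤ} (h : Frame P g₁ g₂ g₃ (a, b, c)) :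
    Frame P g₁ g₃ g₂ (a, c, b) where
  sp := h.sp.swap23
  card := h.card
  miss1 x hx := by
    have := h.miss1 x hx
    simp only [pt, ne_eq, Prod.mk.injEq] at this ⊢
    tauto
  missu x hx := by
    have := h.missu x hx
    simp only [pt, ne_eq, Prod.mk.injEq] at this ⊢
    tauto
  has a' b' c' ha hb hc h1 hu := by
    obtain ⟨x, hx, hx2⟩ := h.has a' c' b' ha hc hb
      (by simp only [ne_eq, Prod.mk.injEq] at h1 ⊢; tauto)
      (by simp only [ne_eq, Prod.mk.injEq] at hu ⊢; tauto)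
    refine ⟨x, hx, ?_⟩
    simp only [pt, Prod.mk.injEq] at hx2 ⊢
    tauto

/-- Sums over the letters of a frame. -/
theorem sum_six {g₁ g₂ g₃ : Γ} (hc : (Φ P).card = 6) (x : Fin 6 → Y) (v : Fin 6 → ℤ × ℤ × ℤ)
    (hv : Function.Injective v) (hx : ∀ i, x i ∈ Φ P) (hxv : ∀ i, pt P g₁ g₂ g₃ (x i) = v i)
    (F : Y → ℤ) : ∑ y ∈ Φ P, F y = F (x 0) + F (x 1) + F (x 2) + F (x 3) + F (x 4) + F (x 5) := by
  classical
  have hinj : Function.Injective x := by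
    intro i j hij
    apply hv
    rw [← hxv i, ← hxv j, hij]
  have himg : Finset.univ.image x = Φ P := by
    apply Finset.eq_of_subset_of_card_le
    · intro y hy
      obtain ⟨i, -, rfl⟩ := Finset.mem_image.1 hy
      exact hx i
    · rw [hc, Finset.card_image_of_injective _ hinj]; simp
  rw [← himg, Finset.sum_image (fun i _ j _ h => hinj h), Fin.sum_univ_six]

theorem inner_translate (g h k : Γ) :
    ∑ y, sg P ((g * k) • y) * sg P ((h * k) • y) = ∑ y, sg P (g • y) * sg P (h • y) := by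
  have := sum_translate k (fun y => sg P (g • y) * sg P (h • y))
  rw [← this]
  refine Finset.sum_congr rfl fun y _ => ?_
  rw [mul_smul, mul_smul]

theorem inner_eq (g h : Γ) :
    ∑ y, sg P (g • y) * sg P (h • y) = 2 * ∑ y ∈ Φ P, sg P (g • y) * sg P (h • y) := by
  apply sum_even
  intro y
  rw [sg_conj', sg_conj']; ring

theorem frame_edge {g₁ g₂ g₃ : Γ} (h : Frame P g₁ g₂ g₃ (-1, 1, 1)) : False := by
  obtain ⟨x1, hx1, e1⟩ := h.has 1 1 (-1) (by norm_num) (by norm_num) (by norm_num) (by decide) (by decide)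
  obtain ⟨x2, hx2, e2⟩ := h.has 1 (-1) 1 (by norm_num) (by norm_num) (by norm_num) (by decide) (by decide)
  obtain ⟨x3, hx3, e3⟩ := h.has 1 (-1) (-1) (by norm_num) (by norm_num) (by norm_num) (by decide) (by decide)
  obtain ⟨x4, hx4, e4⟩ := h.has (-1) 1 (-1) (by norm_num) (by norm_num) (by norm_num) (by decide) (by decide)
  obtain ⟨x5, hx5, e5⟩ := h.has (-1) (-1) 1 (by norm_num) (by norm_num) (by norm_num) (by decide) (by decide)
  obtain ⟨x6, hx6, e6⟩ := h.has (-1) (-1) (-1) (by norm_num) (by norm_num) (by norm_num) (by decide) (by decide)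
  have hsum := sum_six (P := P) (g₁ := g₁) (g₂ := g₂) (g₃ := g₃) h.card ![x1, x2, x3, x4, x5, x6]
    ![(1, 1, -1), (1, -1, 1), (1, -1, -1), (-1, 1, -1), (-1, -1, 1), (-1, -1, -1)] (by decide)
    (by intro i; fin_cases i <;> assumption) (by intro i; fin_cases i <;> assumption)
  have hA := inner_translate (P := P) 1 g₂ g₁
  rw [inner_eq, inner_eq, hsum, hsum] at hA
  obtain ⟨a, b, c, d, hh⟩ := h.sp (g₂ * g₁)
  simp only [pt, Prod.mk.injEq] at e1 e2 e3 e4 e5 e6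
  have f1 := hh x1
  have f2 := hh x2
  have f3 := hh x3
  have f4 := hh x4
  have f5 := hh x5
  have f6 := hh x6
  rw [e1.1, e1.2.1, e1.2.2, sg_Φ hx1] at f1
  rw [e2.1, e2.2.1, e2.2.2, sg_Φ hx2] at f2
  rw [e3.1, e3.2.1, e3.2.2, sg_Φ hx3] at f3
  rw [e4.1, e4.2.1, e4.2.2, sg_Φ hx4] at f4
  rw [e5.1, e5.2.1, e5.2.2, sg_Φ hx5] at f5
  rw [e6.1, e6.2.1, e6.2.2, sg_Φ hx6] at f6
  have k1 : sg P ((g₂ * g₁) • x1) - sg P ((g₂ * g₁) • x4)
      = sg P ((g₂ * g₁) • x2) - sg P ((g₂ * g₁) • x5) := by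
    have : (sg P ((g₂ * g₁) • x1) : ℚ) - sg P ((g₂ * g₁) • x4)
      = sg P ((g₂ * g₁) • x2) - sg P ((g₂ * g₁) • x5) := by rw [f1, f2, f4, f5]; push_cast; ring
    exact_mod_cast this
  have k2 : sg P ((g₂ * g₁) • x1) - sg P ((g₂ * g₁) • x4)
      = sg P ((g₂ * g₁) • x3) - sg P ((g₂ * g₁) • x6) := by
    have : (sg P ((g₂ * g₁) • x1) : ℚ) - sg P ((g₂ * g₁) • x4)
      = sg P ((g₂ * g₁) • x3) - sg P ((g₂ * g₁) • x6) := by rw [f1, f3, f4, f6]; push_cast; ring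
    exact_mod_cast this
  simp only [one_mul, one_smul, Matrix.cons_val_zero, Matrix.cons_val_one, Matrix.cons_val,
    e1.1, e2.1, e3.1, e4.1, e5.1, e6.1, e1.2.1, e2.2.1, e3.2.1, e4.2.1, e5.2.1, e6.2.1,
    sg_Φ hx1, sg_Φ hx2, sg_Φ hx3, sg_Φ hx4, sg_Φ hx5, sg_Φ hx6] at hA
  omega

theorem frame_anti {g₁ g₂ g₃ : Γ} (h : Frame P g₁ g₂ g₃ (-1, -1, -1)) : False := by
  obtain ⟨x1, hx1, e1⟩ := h.has 1 1 (-1) (by norm_num) (by norm_num) (by norm_num) (by decide) (by decide)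
  obtain ⟨x2, hx2, e2⟩ := h.has 1 (-1) 1 (by norm_num) (by norm_num) (by norm_num) (by decide) (by decide)
  obtain ⟨x3, hx3, e3⟩ := h.has (-1) 1 1 (by norm_num) (by norm_num) (by norm_num) (by decide) (by decide)
  obtain ⟨x4, hx4, e4⟩ := h.has (-1) (-1) 1 (by norm_num) (by norm_num) (by norm_num) (by decide) (by decide)
  obtain ⟨x5, hx5, e5⟩ := h.has (-1) 1 (-1) (by norm_num) (by norm_num) (by norm_num) (by decide) (by decide)
  obtain ⟨x6, hx6, e6⟩ := h.has 1 (-1) (-1) (by norm_num) (by norm_num) (by norm_num) (by decide) (by decide)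
  have hsum := sum_six (P := P) (g₁ := g₁) (g₂ := g₂) (g₃ := g₃) h.card ![x1, x2, x3, x4, x5, x6]
    ![(1, 1, -1), (1, -1, 1), (-1, 1, 1), (-1, -1, 1), (-1, 1, -1), (1, -1, -1)] (by decide)
    (by intro i; fin_cases i <;> assumption) (by intro i; fin_cases i <;> assumption)
  have hA := inner_translate (P := P) g₁ g₂ g₁⁻¹
  rw [inner_eq, inner_eq, hsum, hsum] at hA
  obtain ⟨a, b, c, d, hh⟩ := h.sp (g₂ * g₁⁻¹)
  simp only [pt, Prod.mk.injEq] at e1 e2 e3 e4 e5 e6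
  have f1 := hh x1
  have f2 := hh x2
  have f3 := hh x3
  have f4 := hh x4
  have f5 := hh x5
  have f6 := hh x6
  rw [e1.1, e1.2.1, e1.2.2, sg_Φ hx1] at f1
  rw [e2.1, e2.2.1, e2.2.2, sg_Φ hx2] at f2
  rw [e3.1, e3.2.1, e3.2.2, sg_Φ hx3] at f3
  rw [e4.1, e4.2.1, e4.2.2, sg_Φ hx4] at f4
  rw [e5.1, e5.2.1, e5.2.2, sg_Φ hx5] at f5
  rw [e6.1, e6.2.1, e6.2.2, sg_Φ hx6] at f6
  have k1 : sg P ((g₂ * g₁⁻¹) • x1) + sg P ((g₂ * g₁⁻¹) • x4)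
      = sg P ((g₂ * g₁⁻¹) • x2) + sg P ((g₂ * g₁⁻¹) • x5) := by
    have : (sg P ((g₂ * g₁⁻¹) • x1) : ℚ) + sg P ((g₂ * g₁⁻¹) • x4)
      = sg P ((g₂ * g₁⁻¹) • x2) + sg P ((g₂ * g₁⁻¹) • x5) := by rw [f1, f2, f4, f5]; push_cast; ring
    exact_mod_cast this
  have k2 : sg P ((g₂ * g₁⁻¹) • x1) + sg P ((g₂ * g₁⁻¹) • x4)
      = sg P ((g₂ * g₁⁻¹) • x3) + sg P ((g₂ * g₁⁻¹) • x6) := by
    have : (sg P ((g₂ * g₁⁻¹) • x1) : ℚ) + sg P ((g₂ * g₁⁻¹) • x4)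
      = sg P ((g₂ * g₁⁻¹) • x3) + sg P ((g₂ * g₁⁻¹) • x6) := by rw [f1, f3, f4, f6]; push_cast; ring
    exact_mod_cast this
  simp only [mul_inv_cancel, one_smul, Matrix.cons_val_zero, Matrix.cons_val_one, Matrix.cons_val,
    e1.1, e2.1, e3.1, e4.1, e5.1, e6.1, e1.2.1, e2.2.1, e3.2.1, e4.2.1, e5.2.1, e6.2.1,
    sg_Φ hx1, sg_Φ hx2, sg_Φ hx3, sg_Φ hx4, sg_Φ hx5, sg_Φ hx6] at hA
  omega

end Pool.Agent.H62R2.CM6
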