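import Mathlib

/-!
# CM pairs and their Hodge weights

A CM algebra `E` with a CM type is encoded by the Galois set `Y = Hom(E, C)`, the action of the
Galois group `Γ`, complex conjugation `conj ∈ Γ` and the CM type, a subset of `Y`.
By Pohlmann's theorem the Hodge classes on the powers of an abelian variety of this CM type
are described by the Hodge weights `c : Y → ℕ` below.
-/

namespace Pool.Agent.H62R2.CM6

/-- A CM pair: a group `Γ` acting on a finite set `Y`, an element `conj` of `Γ` whose action
commutes with the action of `Γ`, and a subset `type` of `Y` that contains exactly one of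
`y` and `conj • y` for each `y`. -/
structure CMPair (Γ Y : Type*) [Group Γ] [MulAction Γ Y] where
  /-- complex conjugation -/
  conj : Γ
  comm : ∀ (g : Γ) (y : Y), g • conj • y = conj • g • y
  /-- the CM type -/
  type : Set Y
  half : ∀ y : Y, conj • y ∈ type ↔ y ∉ type

variable {Γ Y : Type*} [Group Γ] [MulAction Γ Y] [Fintype Y]

/-- The pair is reduced: two elements of `Y` with the same translates in the type are equal
(the simple factors of the abelian variety are pairwise non-isogenous). -/
def Reduced (P : CMPair Γ Y) : Prop :=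
  ∀ y z : Y, (∀ g : Γ, g • y ∈ P.type ↔ g • z ∈ P.type) → y = z

open scoped Classical in
/-- Hodge weights: for every `g`, as many elements of `c` (with multiplicity) are moved into
the type by `g` as are moved out of it. -/
def IsHodge (P : CMPair Γ Y) (c : Y → ℕ) : Prop :=
  ∀ g : Γ, ∑ y with g • y ∈ P.type, c y = ∑ y with g • y ∉ P.type, c y

/-- The weight with its argument conjugated. -/
def bar (P : CMPair Γ Y) (c : Y → ℕ) : Y → ℕ := fun y => c (P.conj • y)

/-- Sums of pairs `{y, conj • y}`. -/
def IsPairs (P : CMPair Γ Y) (p : Y → ℕ) : Prop := bar P p = p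

/-- The number of elements of a weight. -/
def size (c : Y → ℕ) : ℕ := ∑ y, c y

/-- Weil weights: Hodge weights without a pair that are invariant under a subgroup of index
two which does not contain `conj` (the Galois group of an imaginary quadratic field). -/
def IsWeil (P : CMPair Γ Y) (w : Y → ℕ) : Prop :=
  IsHodge P w ∧ (∀ y, w y = 0 ∨ w (P.conj • y) = 0) ∧
    ∃ N : Subgroup Γ, N.index = 2 ∧ P.conj ∉ N ∧ ∀ n ∈ N, ∀ y, w (n • y) = w y

/-- The exceptional pairs: `Y` has twelve elements, four of which form an invariant subset,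
there are two Hodge weights of size four without a pair such that they and their conjugates
form one orbit under `Γ`, and these two generate the Hodge weights modulo pairs. -/
def IsExceptional (P : CMPair Γ Y) : Prop :=
  Fintype.card Y = 12 ∧
  (∃ B : Finset Y, B.card = 4 ∧ ∀ g : Γ, ∀ y ∈ B, g • y ∈ B) ∧
  ∃ w₁ w₂ : Y → ℕ, IsHodge P w₁ ∧ IsHodge P w₂ ∧ size w₁ = 4 ∧ size w₂ = 4 ∧
    (∀ y, w₁ y = 0 ∨ w₁ (P.conj • y) = 0) ∧ (∀ y, w₂ y = 0 ∨ w₂ (P.conj • y) = 0) ∧
    w₁ ≠ w₂ ∧ w₁ ≠ bar P w₂ ∧
    (∀ g : Γ, (fun y => w₁ (g • y)) = w₁ ∨ (fun y => w₁ (g • y)) = bar P w₁ ∨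
      (fun y => w₁ (g • y)) = w₂ ∨ (fun y => w₁ (g • y)) = bar P w₂) ∧
    (∃ g : Γ, (fun y => w₁ (g • y)) = w₂) ∧
    ∀ c : Y → ℕ, IsHodge P c → ∃ a b : ℤ, ∀ y,
      (c y : ℤ) - bar P c y = a * (w₁ y - bar P w₁ y) + b * (w₂ y - bar P w₂ y)

end Pool.Agent.H62R2.CM6
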