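import Pool.Agent.H62R2.CM6.Basic

/-! # Positive parts of relations -/

set_option linter.unusedSectionVars false

namespace Pool.Agent.H62R2.CM6

variable {Γ Y : Type*} [Group Γ] [MulAction Γ Y] [Fintype Y] {P : CMPair Γ Y}

/-- The positive part of a relation. -/
def pos (r : Y → ℤ) : Y → ℕ := fun y => (r y).toNat

theorem pos_sub_bar {r : Y → ℤ} (hr : Rel P r) (y : Y) :
    (pos r y : ℤ) - bar P (pos r) y = r y := by
  simp only [pos, bar]
  rw [hr.odd]
  omega

theorem pos_disj {r : Y → ℤ} (hr : Rel P r) (y : Y) : pos r y = 0 ∨ pos r (P.conj • y) = 0 := by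
  simp only [pos]
  rw [hr.odd]
  omega

theorem pos_isHodge {r : Y → ℤ} (hr : Rel P r) : IsHodge P (pos r) := by
  rw [isHodge_iff]
  intro g
  have h1 := hr.bal g
  have h2 : ∑ y, r y * sg P (g • y) = ∑ y, ((pos r y : ℤ) - bar P (pos r) y) * sg P (g • y) := by
    refine Finset.sum_congr rfl fun y _ => ?_
    rw [pos_sub_bar hr]
  have h3 := sum_bar (P := P) g (fun y => (pos r y : ℤ))
  simp only [sub_mul, Finset.sum_sub_distrib] at h2
  simp only [bar] at h2
  rw [h3, h1] at h2
  omega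

theorem size_pos {r : Y → ℤ} (hr : Rel P r) : size (pos r) = ∑ y ∈ Φ P, (r y).natAbs := by
  have h1 : (size (pos r) : ℤ) = ∑ y, (pos r y : ℤ) := by simp [size]
  have h2 := sum_conj P (fun y => (pos r y : ℤ))
  have h3 : ∑ y, (((pos r y : ℤ)) + (pos r (P.conj • y) : ℤ)) = 2 * (size (pos r) : ℤ) := by
    rw [Finset.sum_add_distrib, h2, h1]; ring
  have h4 : ∀ y, (((pos r y : ℤ)) + (pos r (P.conj • y) : ℤ)) = ((r y).natAbs : ℤ) := by
    intro y
    simp only [pos]
    rw [hr.odd]
    omega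
  simp only [h4] at h3
  rw [sum_even (P := P)] at h3
  · have : (size (pos r) : ℤ) = ∑ y ∈ Φ P, ((r y).natAbs : ℤ) := by omega
    exact_mod_cast this
  · intro y
    rw [hr.odd, Int.natAbs_neg]

end Pool.Agent.H62R2.CM6
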