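import Pool.Agent.H62R2.CM6.Cube
import Pool.Agent.H62R2.CM6.Weight

/-! # The exceptional case -/

set_option linter.unusedSectionVars false

namespace Pool.Agent.H62R2.CM6

variable {Γ Y : Type*} [Group Γ] [MulAction Γ Y] [Fintype Y] {P : CMPair Γ Y}

theorem mem_six {g₁ g₂ g₃ : Γ} (hc : (Φ P).card = 6) (x : Fin 6 → Y) (v : Fin 6 → ℤ × ℤ × ℤ)
    (hv : Function.Injective v) (hx : ∀ i, x i ∈ Φ P) (hxv : ∀ i, pt P g₁ g₂ g₃ (x i) = v i)
    (y : Y) (hy : y ∈ Φ P) : ∃ i, x i = y := by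
  classical
  have hinj : Function.Injective x := by
    intro i j hij
    apply hv
    rw [← hxv i, ← hxv j, hij]
  have himg : Finset.univ.image x = Φ P := by
    apply Finset.eq_of_subset_of_card_le
    · intro y hy
      obtain ⟨i, -, rfl⟩ := Finset.mem_image.1 hy
      exact hx i
    · rw [hc, Finset.card_image_of_injective _ hinj]; simp
  rw [← himg] at hy
  obtain ⟨i, -, h⟩ := Finset.mem_image.1 hy
  exact ⟨i, h⟩

/-- First relation of the exceptional case. -/
noncomputable def relC (P : CMPair Γ Y) (g₁ g₂ g₃ : Γ) (y : Y) : ℤ :=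
  if sg P y = sg P (g₁ • y) then 0 else - (sg P y * sg P (g₂ • y) * sg P (g₃ • y))

/-- Second relation of the exceptional case. -/
noncomputable def relD (P : CMPair Γ Y) (g₁ g₂ g₃ : Γ) (y : Y) : ℤ :=
  if sg P (g₂ • y) = sg P (g₃ • y) then 0 else - (sg P y * sg P (g₁ • y) * sg P (g₂ • y))

theorem relC_odd {g₁ g₂ g₃ : Γ} (y : Y) : relC P g₁ g₂ g₃ (P.conj • y) = - relC P g₁ g₂ g₃ y := by
  unfold relC
  rw [sg_conj', sg_conj', sg_conj', sg_conj]
  by_cases h : sg P y = sg P (g₁ • y)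
  · rw [if_pos h, if_pos (by rw [h])]; ring
  · rw [if_neg h, if_neg (fun h2 => h (by omega))]; ring

theorem relD_odd {g₁ g₂ g₃ : Γ} (y : Y) : relD P g₁ g₂ g₃ (P.conj • y) = - relD P g₁ g₂ g₃ y := by
  unfold relD
  rw [sg_conj', sg_conj', sg_conj', sg_conj]
  by_cases h : sg P (g₂ • y) = sg P (g₃ • y)
  · rw [if_pos h, if_pos (by rw [h])]; ring
  · rw [if_neg h, if_neg (fun h2 => h (by omega))]; ring

theorem relC_vals {g₁ g₂ g₃ : Γ} (y : Y) :
    relC P g₁ g₂ g₃ y = 0 ∨ relC P g₁ g₂ g₃ y = 1 ∨ relC P g₁ g₂ g₃ y = -1 := by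
  unfold relC
  rcases sg_cases P y with h0 | h0 <;> rcases sg_cases P (g₁ • y) with h1 | h1 <;>
    rcases sg_cases P (g₂ • y) with h2 | h2 <;> rcases sg_cases P (g₃ • y) with h3 | h3 <;>
    simp [h0, h1, h2, h3]

theorem relD_vals {g₁ g₂ g₃ : Γ} (y : Y) :
    relD P g₁ g₂ g₃ y = 0 ∨ relD P g₁ g₂ g₃ y = 1 ∨ relD P g₁ g₂ g₃ y = -1 := by
  unfold relD
  rcases sg_cases P y with h0 | h0 <;> rcases sg_cases P (g₁ • y) with h1 | h1 <;>
    rcases sg_cases P (g₂ • y) with h2 | h2 <;> rcases sg_cases P (g₃ • y) with h3 | h3 <;>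
    simp [h0, h1, h2, h3]

theorem frame_face (hP : Reduced P) {g₁ g₂ g₃ : Γ} (h : Frame P g₁ g₂ g₃ (1, -1, -1)) :
    IsExceptional P := by
  classical
  obtain ⟨p, hp, ep⟩ := h.has 1 1 (-1) (by norm_num) (by norm_num) (by norm_num) (by decide) (by decide)
  obtain ⟨q, hq, eq⟩ := h.has 1 (-1) 1 (by norm_num) (by norm_num) (by norm_num) (by decide) (by decide)
  obtain ⟨a, ha, ea⟩ := h.has (-1) 1 (-1) (by norm_num) (by norm_num) (by norm_num) (by decide) (by decide)
  obtain ⟨b, hb, eb⟩ := h.has (-1) (-1) 1 (by norm_num) (by norm_num) (by norm_num) (by decide) (by decide)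
  obtain ⟨c, hc, ec⟩ := h.has (-1) 1 1 (by norm_num) (by norm_num) (by norm_num) (by decide) (by decide)
  obtain ⟨d, hd, ed⟩ := h.has (-1) (-1) (-1) (by norm_num) (by norm_num) (by norm_num) (by decide) (by decide)
  have hi : ∀ i : Fin 6, (![p, q, a, b, c, d] : Fin 6 → Y) i ∈ Φ P := by
    intro i; fin_cases i <;> assumption
  have hv : ∀ i : Fin 6, pt P g₁ g₂ g₃ ((![p, q, a, b, c, d] : Fin 6 → Y) i) =
      (![(1, 1, -1), (1, -1, 1), (-1, 1, -1), (-1, -1, 1), (-1, 1, 1), (-1, -1, -1)] :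
        Fin 6 → ℤ × ℤ × ℤ) i := by
    intro i; fin_cases i <;> assumption
  have hsum := sum_six (P := P) (g₁ := g₁) (g₂ := g₂) (g₃ := g₃) h.card ![p, q, a, b, c, d]
    ![(1, 1, -1), (1, -1, 1), (-1, 1, -1), (-1, -1, 1), (-1, 1, 1), (-1, -1, -1)] (by decide) hi hv
  have hmem := mem_six (P := P) (g₁ := g₁) (g₂ := g₂) (g₃ := g₃) h.card ![p, q, a, b, c, d]
    ![(1, 1, -1), (1, -1, 1), (-1, 1, -1), (-1, -1, 1), (-1, 1, 1), (-1, -1, -1)] (by decide) hi hv
  simp only [Matrix.cons_val_zero, Matrix.cons_val_one, Matrix.cons_val] at hsum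
  have hmem' : ∀ y ∈ Φ P, y = p ∨ y = q ∨ y = a ∨ y = b ∨ y = c ∨ y = d := by
    intro y hy
    obtain ⟨i, hi⟩ := hmem y hy
    fin_cases i
    · exact Or.inl hi.symm
    · exact Or.inr (Or.inl hi.symm)
    · exact Or.inr (Or.inr (Or.inl hi.symm))
    · exact Or.inr (Or.inr (Or.inr (Or.inl hi.symm)))
    · exact Or.inr (Or.inr (Or.inr (Or.inr (Or.inl hi.symm))))
    · exact Or.inr (Or.inr (Or.inr (Or.inr (Or.inr hi.symm))))
  clear hmem hi hv
  simp only [pt, Prod.mk.injEq] at ep eq ea eb ec ed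
  have sp := sg_Φ hp
  have sq := sg_Φ hq
  have sa := sg_Φ ha
  have sb := sg_Φ hb
  have sc := sg_Φ hc
  have sd := sg_Φ hd
  -- values of the relations
  have Cp : relC P g₁ g₂ g₃ p = 0 := by simp [relC, ep, sp]
  have Cq : relC P g₁ g₂ g₃ q = 0 := by simp [relC, eq, sq]
  have Ca : relC P g₁ g₂ g₃ a = 1 := by simp [relC, ea, sa]
  have Cb : relC P g₁ g₂ g₃ b = 1 := by simp [relC, eb, sb]
  have Cc : relC P g₁ g₂ g₃ c = -1 := by simp [relC, ec, sc]
  have Cd : relC P g₁ g₂ g₃ d = -1 := by simp [relC, ed, sd]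
  have Dp : relD P g₁ g₂ g₃ p = -1 := by simp [relD, ep, sp]
  have Dq : relD P g₁ g₂ g₃ q = 1 := by simp [relD, eq, sq]
  have Da : relD P g₁ g₂ g₃ a = 1 := by simp [relD, ea, sa]
  have Db : relD P g₁ g₂ g₃ b = -1 := by simp [relD, eb, sb]
  have Dc : relD P g₁ g₂ g₃ c = 0 := by simp [relD, ec, sc]
  have Dd : relD P g₁ g₂ g₃ d = 0 := by simp [relD, ed, sd]
  -- sign vectors
  have hs : ∀ g : Γ, sg P (g • a) + sg P (g • b) - sg P (g • c) - sg P (g • d) = 0 ∧
      sg P (g • a) - sg P (g • b) - sg P (g • p) + sg P (g • q) = 0 := by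
    intro g
    obtain ⟨α, β, γ, δ, hh⟩ := h.sp g
    have f1 := hh p
    have f2 := hh q
    have f3 := hh a
    have f4 := hh b
    have f5 := hh c
    have f6 := hh d
    rw [ep.1, ep.2.1, ep.2.2, sp] at f1
    rw [eq.1, eq.2.1, eq.2.2, sq] at f2
    rw [ea.1, ea.2.1, ea.2.2, sa] at f3
    rw [eb.1, eb.2.1, eb.2.2, sb] at f4
    rw [ec.1, ec.2.1, ec.2.2, sc] at f5
    rw [ed.1, ed.2.1, ed.2.2, sd] at f6
    constructor
    · have : (sg P (g • a) : ℚ) + sg P (g • b) - sg P (g • c) - sg P (g • d) = 0 := by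
        rw [f3, f4, f5, f6]; push_cast; ring
      exact_mod_cast this
    · have : (sg P (g • a) : ℚ) - sg P (g • b) - sg P (g • p) + sg P (g • q) = 0 := by
        rw [f3, f4, f1, f2]; push_cast; ring
      exact_mod_cast this
  set C := relC P g₁ g₂ g₃ with hCdef
  set D := relD P g₁ g₂ g₃ with hDdef
  have hCo : ∀ y, C (P.conj • y) = - C y := relC_odd
  have hDo : ∀ y, D (P.conj • y) = - D y := relD_odd
  have hC : Rel P C := by
    refine ⟨hCo, fun g => ?_⟩
    rw [sum_even (P := P), hsum]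
    · rw [Cp, Cq, Ca, Cb, Cc, Cd]
      have := (hs g).1
      linarith
    · intro y; rw [hCo, sg_conj']; ring
  have hD : Rel P D := by
    refine ⟨hDo, fun g => ?_⟩
    rw [sum_even (P := P), hsum]
    · rw [Dp, Dq, Da, Db, Dc, Dd]
      have := (hs g).2
      linarith
    · intro y; rw [hDo, sg_conj']; ring
  -- all relations
  have hgen : ∀ r : Y → ℤ, Rel P r → ∃ A B : ℤ, ∀ y, r y = A * C y + B * D y := by
    intro r hr
    have b0 := hr.bal' 1
    have b1 := hr.bal' g₁
    have b2 := hr.bal' g₂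
    have b3 := hr.bal' g₃
    rw [hsum] at b0 b1 b2 b3
    simp only [one_smul] at b0
    rw [sp, sq, sa, sb, sc, sd] at b0
    rw [ep.1, eq.1, ea.1, eb.1, ec.1, ed.1] at b1
    rw [ep.2.1, eq.2.1, ea.2.1, eb.2.1, ec.2.1, ed.2.1] at b2
    rw [ep.2.2, eq.2.2, ea.2.2, eb.2.2, ec.2.2, ed.2.2] at b3
    refine ⟨- r c, - r p, ?_⟩
    have hz : ∀ y, r y - (- r c * C y + - r p * D y) = 0 := by
      apply Rel.eq_zero (P := P)
      · intro y; rw [hr.odd, hC.odd, hD.odd]; ring
      · intro y hy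
        rcases hmem' y hy with rfl | rfl | rfl | rfl | rfl | rfl
        · rw [Cp, Dp]; ring
        · rw [Cq, Dq]; linarith
        · rw [Ca, Da]; linarith
        · rw [Cb, Db]; linarith
        · rw [Cc, Dc]; ring
        · rw [Cd, Dd]; linarith
    intro y
    have := hz y
    linarith
  -- translates of the relations
  have htr : ∀ (E : Y → ℤ), Rel P E → (∀ y, E y = 0 ∨ E y = 1 ∨ E y = -1) → (∃ y, E y ≠ 0) →
      ∀ g : Γ, (∀ y, E (g • y) = C y) ∨ (∀ y, E (g • y) = - C y) ∨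
        (∀ y, E (g • y) = D y) ∨ (∀ y, E (g • y) = - D y) := by
    intro E hE hval hne g
    obtain ⟨A, B, hAB⟩ := hgen _ (hE.translate g)
    have v1 := hAB a
    have v2 := hAB b
    have v3 := hAB c
    have v4 := hAB p
    simp only [Ca, Cb, Cc, Cp, Da, Db, Dc, Dp] at v1 v2 v3 v4
    have w1 := hval (g • a)
    have w2 := hval (g • b)
    have w3 := hval (g • c)
    have w4 := hval (g • p)
    have hne2 : ¬ (A = 0 ∧ B = 0) := by
      rintro ⟨rfl, rfl⟩
      obtain ⟨y, hy⟩ := hne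
      have := hAB (g⁻¹ • y)
      rw [smul_inv_smul] at this
      apply hy; rw [this]; ring
    have hcases : (A = 1 ∧ B = 0) ∨ (A = -1 ∧ B = 0) ∨ (A = 0 ∧ B = 1) ∨ (A = 0 ∧ B = -1) := by
      omega
    rcases hcases with ⟨rfl, rfl⟩ | ⟨rfl, rfl⟩ | ⟨rfl, rfl⟩ | ⟨rfl, rfl⟩
    · left; intro y; rw [hAB]; ring
    · right; left; intro y; rw [hAB]; ring
    · right; right; left; intro y; rw [hAB]; ring
    · right; right; right; intro y; rw [hAB]; ring
  have htC := htr C hC relC_vals ⟨a, by rw [Ca]; norm_num⟩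
  have htD := htr D hD relD_vals ⟨a, by rw [Da]; norm_num⟩
  -- the element `g₂` exchanges the two relations
  have hswap : ∃ g : Γ, ∀ y, C (g • y) = D y := by
    have hsw2 : (∀ y, C (g₂ • y) = D y) ∨ (∀ y, C (g₂ • y) = - D y) := by
      have hno : ∀ ε : ℤ, (ε = 1 ∨ ε = -1) → ¬ ∀ y, C (g₂ • y) = ε * C y := by
        intro ε hε hcon
        have hD2 : ∀ y, D (g₂ • y) * D (g₂ • y) = D y * D y := by
          have hee : ε * ε = 1 := by rcases hε with rfl | rfl <;> norm_num
          have himp : ∀ η : ℤ, (η = 1 ∨ η = -1) → ¬ ∀ y, D (g₂ • y) = η * C y := by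
            intro η hη h2
            have h3 : ∀ y, D y = η * ε * C y := by
              intro y
              have h4 := h2 (g₂⁻¹ • y)
              have h5 := hcon (g₂⁻¹ • y)
              rw [smul_inv_smul] at h4 h5
              rw [h4, h5]
              have : η * ε * (ε * C (g₂⁻¹ • y)) = η * (ε * ε) * C (g₂⁻¹ • y) := by ring
              rw [this, hee]; ring
            have h6 := h3 a
            have h7 := h3 b
            rw [Ca, Da] at h6
            rw [Cb, Db] at h7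
            omega
          rcases htD g₂ with h2 | h2 | h2 | h2
          · exact absurd (fun y => by rw [h2 y]; ring) (himp 1 (Or.inl rfl))
          · exact absurd (fun y => by rw [h2 y]; ring) (himp (-1) (Or.inr rfl))
          · intro y; rw [h2]
          · intro y; rw [h2]; ring
        have hK : ∀ y, C (g₂ • y) * (D (g₂ • y) * D (g₂ • y)) = ε * (C y * (D y * D y)) := by
          intro y; rw [hcon, hD2]; ring
        have hJ1 : ∑ y, (C y * (D y * D y)) * sg P y = 4 := by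
          rw [sum_even (P := P), hsum]
          · rw [Cp, Cq, Ca, Cb, Cc, Cd, Dp, Dq, Da, Db, Dc, Dd, sp, sq, sa, sb, sc, sd]; norm_num
          · intro y; rw [hC.odd, hD.odd, sg_conj]; ring
        have hJ2 : ∑ y, (C y * (D y * D y)) * sg P (g₂ • y) = 0 := by
          rw [sum_even (P := P), hsum]
          · rw [Cp, Cq, Ca, Cb, Cc, Cd, Dp, Dq, Da, Db, Dc, Dd, ea.2.1, eb.2.1]; norm_num
          · intro y; rw [hC.odd, hD.odd, sg_conj']; ring
        have hJ3 := sum_translate g₂ (fun y => (C y * (D y * D y)) * sg P y)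
        rw [hJ1] at hJ3
        have hJ4 : ∑ y, (C (g₂ • y) * (D (g₂ • y) * D (g₂ • y))) * sg P (g₂ • y)
            = ε * ∑ y, (C y * (D y * D y)) * sg P (g₂ • y) := by
          rw [Finset.mul_sum]
          refine Finset.sum_congr rfl fun y _ => ?_
          rw [hK]; ring
        rw [hJ3, hJ2] at hJ4
        norm_num at hJ4
      rcases htC g₂ with h2 | h2 | h2 | h2
      · exact absurd (fun y => by rw [h2 y]; ring) (hno 1 (Or.inl rfl))
      · exact absurd (fun y => by rw [h2 y]; ring) (hno (-1) (Or.inr rfl))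
      · exact Or.inl h2
      · exact Or.inr h2
    rcases hsw2 with h2 | h2
    · exact ⟨g₂, h2⟩
    · refine ⟨P.conj * g₂, fun y => ?_⟩
      rw [mul_smul, hC.odd, h2]; ring
  have hbarC : bar P (pos C) = fun y => (- C y).toNat := by
    funext y; simp only [bar, pos]; rw [hC.odd]
  have hbarD : bar P (pos D) = fun y => (- D y).toNat := by
    funext y; simp only [bar, pos]; rw [hD.odd]
  refine ⟨?_, ?_, pos C, pos D, pos_isHodge hC, pos_isHodge hD, ?_, ?_, pos_disj hC, pos_disj hD,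
    ?_, ?_, ?_, ?_, ?_⟩
  · rw [card_eq (P := P), h.card]
  · refine ⟨Finset.univ.filter (fun y => C y ≠ 0 ∧ D y ≠ 0), ?_, ?_⟩
    · have h1 : ((Finset.univ.filter (fun y => C y ≠ 0 ∧ D y ≠ 0)).card : ℤ)
          = ∑ y, (C y * C y) * (D y * D y) := by
        rw [Finset.card_filter]
        push_cast
        refine Finset.sum_congr rfl fun y _ => ?_
        rcases relC_vals (P := P) (g₁ := g₁) (g₂ := g₂) (g₃ := g₃) y with h1 | h1 | h1 <;>
          rcases relD_vals (P := P) (g₁ := g₁) (g₂ := g₂) (g₃ := g₃) y with h2 | h2 | h2 <;>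
          rw [← hCdef] at h1 <;> rw [← hDdef] at h2 <;> simp [h1, h2]
      have h2 : ∑ y, (C y * C y) * (D y * D y) = 4 := by
        rw [sum_even (P := P), hsum]
        · rw [Cp, Cq, Ca, Cb, Cc, Cd, Dp, Dq, Da, Db, Dc, Dd]; norm_num
        · intro y; rw [hC.odd, hD.odd]; ring
      rw [h2] at h1
      exact_mod_cast h1
    · intro g y hy
      simp only [Finset.mem_filter, Finset.mem_univ, true_and] at hy ⊢
      obtain ⟨hy1, hy2⟩ := hy
      constructor
      · rcases htC g with h2 | h2 | h2 | h2 <;> rw [h2] <;> simp [hy1, hy2]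
      · rcases htD g with h2 | h2 | h2 | h2 <;> rw [h2] <;> simp [hy1, hy2]
  · rw [size_pos hC]
    have h1 := hsum (fun y => |C y|)
    simp only [Cp, Cq, Ca, Cb, Cc, Cd] at h1
    norm_num at h1
    zify
    exact h1
  · rw [size_pos hD]
    have h1 := hsum (fun y => |D y|)
    simp only [Dp, Dq, Da, Db, Dc, Dd] at h1
    norm_num at h1
    zify
    exact h1
  · intro hcon
    have h1 := congrFun hcon b
    simp only [pos] at h1
    rw [Cb, Db] at h1
    exact absurd h1 (by decide)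
  · intro hcon
    have h1 := congrFun hcon a
    rw [hbarD] at h1
    simp only [pos] at h1
    rw [Ca, Da] at h1
    exact absurd h1 (by decide)
  · intro g
    rcases htC g with h2 | h2 | h2 | h2
    · left; funext y; simp only [pos]; rw [h2]
    · right; left; rw [hbarC]; funext y; simp only [pos]; rw [h2]
    · right; right; left; funext y; simp only [pos]; rw [h2]
    · right; right; right; rw [hbarD]; funext y; simp only [pos]; rw [h2]
  · obtain ⟨g, hg⟩ := hswap
    exact ⟨g, by funext y; simp only [pos]; rw [hg]⟩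
  · intro w hw
    obtain ⟨A, B, hAB⟩ := hgen _ (rel_of_isHodge hP hw)
    refine ⟨A, B, fun y => ?_⟩
    rw [pos_sub_bar hC, pos_sub_bar hD]
    exact hAB y

end Pool.Agent.H62R2.CM6
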