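import Pool.Agent.H62R2.CM6.Except

/-! # Two independent relations: the exceptional case -/

set_option linter.unusedSectionVars false

namespace Pool.Agent.H62R2.CM6

variable {Γ Y : Type*} [Group Γ] [MulAction Γ Y] [Fintype Y] {P : CMPair Γ Y}

theorem exists_flip (g : Γ) {ε : ℤ} (hε : ε = 1 ∨ ε = -1) :
    ∃ g' : Γ, ∀ y, sg P (g' • y) = ε * sg P (g • y) := by
  rcases hε with rfl | rfl
  · exact ⟨g, fun y => by ring⟩
  · exact ⟨P.conj * g, fun y => by rw [mul_smul, sg_conj]; ring⟩

theorem exceptional_of_two (hP : Reduced P) {d e : Y → ℤ} (hd : Rel P d) (he : Rel P e)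
    (hind : ∀ p q : ℤ, (∀ y, p * d y + q * e y = 0) → p = 0 ∧ q = 0) (hn : (Φ P).card ≤ 6) :
    IsExceptional P := by
  classical
  obtain ⟨h6, g₁, g₂, g₃, hsp⟩ := exists_span hP hd he hind hn
  let cube : Finset (ℤ × ℤ × ℤ) := ({1, -1} : Finset ℤ) ×ˢ (({1, -1} : Finset ℤ) ×ˢ ({1, -1} : Finset ℤ))
  have hcube : cube.card = 8 := by decide
  have hmem : ∀ a b c : ℤ, (a, b, c) ∈ cube ↔ (a = 1 ∨ a = -1) ∧ (b = 1 ∨ b = -1) ∧ (c = 1 ∨ c = -1) := by
    intro a b c
    simp [cube]
  let img := (Φ P).image (pt P g₁ g₂ g₃)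
  have himg : img.card = 6 := by
    rw [Finset.card_image_of_injOn, h6]
    intro x hx y hy hxy
    exact pt_inj hP hsp hx hy hxy
  have hsub : img ⊆ cube := by
    intro z hz
    obtain ⟨x, -, rfl⟩ := Finset.mem_image.1 hz
    simp only [pt]
    rw [hmem]
    exact ⟨sg_cases P _, sg_cases P _, sg_cases P _⟩
  have hcard : (cube \ img).card = 2 := by
    rw [Finset.card_sdiff_of_subset hsub, hcube, himg]
  obtain ⟨u, v, huv, huv2⟩ := Finset.card_eq_two.1 hcard
  obtain ⟨u1, u2, u3⟩ := u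
  obtain ⟨v1, v2, v3⟩ := v
  have hu : (u1, u2, u3) ∈ cube \ img := by rw [huv2]; simp
  have hv : (v1, v2, v3) ∈ cube \ img := by rw [huv2]; simp
  have hoth : ∀ z ∈ cube, z ≠ (u1, u2, u3) → z ≠ (v1, v2, v3) → z ∈ img := by
    intro z hz h1 h2
    by_contra h3
    have : z ∈ cube \ img := Finset.mem_sdiff.2 ⟨hz, h3⟩
    rw [huv2] at this
    simp only [Finset.mem_insert, Finset.mem_singleton] at this
    tauto
  obtain ⟨hu1, hu2, hu3⟩ := (hmem _ _ _).1 (Finset.mem_sdiff.1 hu).1
  obtain ⟨hv1, hv2, hv3⟩ := (hmem _ _ _).1 (Finset.mem_sdiff.1 hv).1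
  have hu' := (Finset.mem_sdiff.1 hu).2
  have hv' := (Finset.mem_sdiff.1 hv).2
  obtain ⟨k₁, hk₁⟩ := exists_flip (P := P) g₁ hu1
  obtain ⟨k₂, hk₂⟩ := exists_flip (P := P) g₂ hu2
  obtain ⟨k₃, hk₃⟩ := exists_flip (P := P) g₃ hu3
  have huu1 : u1 * u1 = 1 := by rcases hu1 with h | h <;> rw [h] <;> norm_num
  have huu2 : u2 * u2 = 1 := by rcases hu2 with h | h <;> rw [h] <;> norm_num
  have huu3 : u3 * u3 = 1 := by rcases hu3 with h | h <;> rw [h] <;> norm_num
  have hF : Frame P k₁ k₂ k₃ (u1 * v1, u2 * v2, u3 * v3) := by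
    refine ⟨?_, h6, ?_, ?_, ?_⟩
    · intro g
      obtain ⟨a, b, c, d, h⟩ := hsp g
      refine ⟨a, b * u1, c * u2, d * u3, fun y => ?_⟩
      rw [h, hk₁, hk₂, hk₃]
      have q1 : (u1 : ℚ) * u1 = 1 := by exact_mod_cast huu1
      have q2 : (u2 : ℚ) * u2 = 1 := by exact_mod_cast huu2
      have q3 : (u3 : ℚ) * u3 = 1 := by exact_mod_cast huu3
      push_cast
      linear_combination (- b * sg P (g₁ • y)) * q1 + (- c * sg P (g₂ • y)) * q2
        + (- d * sg P (g₃ • y)) * q3
    · intro x hx hcon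
      simp only [pt, Prod.mk.injEq] at hcon
      rw [hk₁, hk₂, hk₃] at hcon
      apply hu'
      refine Finset.mem_image.2 ⟨x, hx, ?_⟩
      simp only [pt, Prod.mk.injEq]
      refine ⟨?_, ?_, ?_⟩
      · linear_combination u1 * hcon.1 - sg P (g₁ • x) * huu1
      · linear_combination u2 * hcon.2.1 - sg P (g₂ • x) * huu2
      · linear_combination u3 * hcon.2.2 - sg P (g₃ • x) * huu3
    · intro x hx hcon
      simp only [pt, Prod.mk.injEq] at hcon
      rw [hk₁, hk₂, hk₃] at hcon
      apply hv'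
      refine Finset.mem_image.2 ⟨x, hx, ?_⟩
      simp only [pt, Prod.mk.injEq]
      refine ⟨?_, ?_, ?_⟩
      · linear_combination u1 * hcon.1 - (sg P (g₁ • x) - v1) * huu1
      · linear_combination u2 * hcon.2.1 - (sg P (g₂ • x) - v2) * huu2
      · linear_combination u3 * hcon.2.2 - (sg P (g₃ • x) - v3) * huu3
    · intro a b c ha hb hc h1 h2
      have hz : (u1 * a, u2 * b, u3 * c) ∈ img := by
        apply hoth
        · rw [hmem]
          refine ⟨?_, ?_, ?_⟩
          · rcases hu1 with h | h <;> rcases ha with h' | h' <;> rw [h, h'] <;> norm_num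
          · rcases hu2 with h | h <;> rcases hb with h' | h' <;> rw [h, h'] <;> norm_num
          · rcases hu3 with h | h <;> rcases hc with h' | h' <;> rw [h, h'] <;> norm_num
        · intro hcon
          apply h1
          simp only [Prod.mk.injEq] at hcon ⊢
          refine ⟨?_, ?_, ?_⟩
          · linear_combination u1 * hcon.1 - (a - 1) * huu1
          · linear_combination u2 * hcon.2.1 - (b - 1) * huu2
          · linear_combination u3 * hcon.2.2 - (c - 1) * huu3
        · intro hcon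
          apply h2
          simp only [Prod.mk.injEq] at hcon ⊢
          refine ⟨?_, ?_, ?_⟩
          · linear_combination u1 * hcon.1 - a * huu1
          · linear_combination u2 * hcon.2.1 - b * huu2
          · linear_combination u3 * hcon.2.2 - c * huu3
      obtain ⟨x, hx, hx2⟩ := Finset.mem_image.1 hz
      refine ⟨x, hx, ?_⟩
      simp only [pt, Prod.mk.injEq] at hx2 ⊢
      rw [hk₁, hk₂, hk₃, hx2.1, hx2.2.1, hx2.2.2]
      refine ⟨?_, ?_, ?_⟩
      · linear_combination a * huu1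
      · linear_combination b * huu2
      · linear_combination c * huu3
  have hne : ¬ (u1 * v1 = 1 ∧ u2 * v2 = 1 ∧ u3 * v3 = 1) := by
    rintro ⟨h1, h2, h3⟩
    apply huv
    simp only [Prod.mk.injEq]
    refine ⟨?_, ?_, ?_⟩
    · linear_combination (-u1) * h1 + v1 * huu1
    · linear_combination (-u2) * h2 + v2 * huu2
    · linear_combination (-u3) * h3 + v3 * huu3
  have c1 : u1 * v1 = 1 ∨ u1 * v1 = -1 := by
    rcases hu1 with h | h <;> rcases hv1 with h' | h' <;> rw [h, h'] <;> norm_num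
  have c2 : u2 * v2 = 1 ∨ u2 * v2 = -1 := by
    rcases hu2 with h | h <;> rcases hv2 with h' | h' <;> rw [h, h'] <;> norm_num
  have c3 : u3 * v3 = 1 ∨ u3 * v3 = -1 := by
    rcases hu3 with h | h <;> rcases hv3 with h' | h' <;> rw [h, h'] <;> norm_num
  generalize u1 * v1 = w1 at *
  generalize u2 * v2 = w2 at *
  generalize u3 * v3 = w3 at *
  rcases c1 with rfl | rfl <;> rcases c2 with rfl | rfl <;> rcases c3 with rfl | rfl
  · exact absurd ⟨rfl, rfl, rfl⟩ hne
  · exact (frame_edge hF.swap23.swap12).elim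
  · exact (frame_edge hF.swap12).elim
  · exact frame_face hP hF
  · exact (frame_edge hF).elim
  · exact frame_face hP hF.swap12
  · exact frame_face hP hF.swap23.swap12
  · exact (frame_anti hF).elim

end Pool.Agent.H62R2.CM6
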