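import Pool.Agent.H62R2.CM6.Blocks
import Pool.Agent.H62R2.CM6.Rank2

/-! # The classification -/

set_option linter.unusedSectionVars false

namespace Pool.Agent.H62R2.CM6

variable {Γ Y : Type*} [Group Γ] [MulAction Γ Y] [Fintype Y] {P : CMPair Γ Y} {r : Y → ℤ}

theorem two_case (hP : Reduced P) (hr : Rel P r) (hr0 : ∃ y, r y ≠ 0)
    (hgen : ∀ d, Rel P d → ∃ k : ℤ, ∀ y, d y = k * r y) (hn : (Φ P).card ≤ 6)
    {a b : ℕ} (hab : a ≠ b) (hA : vals P r = {a, b}) (hk : (blk P r b).card ≤ (blk P r a).card) :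
    size (pos r) = 6 ∨ (size (pos r) = 8 ∧ ∃ y, pos r y = 3) := by
  classical
  have hε := gen_sign hr hr0 hgen
  have ha : a ∈ vals P r := by rw [hA]; simp
  have hb : b ∈ vals P r := by rw [hA]; simp
  have ha0 : a ≠ 0 := (Finset.mem_erase.1 ha).1
  have hb0 : b ≠ 0 := (Finset.mem_erase.1 hb).1
  have h1 := sum_blkSum hr
  have h2 := size_eq hr
  have h3 := card_vals (P := P) (r := r)
  rw [hA, Finset.sum_pair hab] at h1 h2 h3
  have h4 := blk_pos ha
  have h5 := blk_pos hb
  have h6 := blk_card_ne_two hP hr hε ha0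
  have h7 := blk_card_ne_two hP hr hε hb0
  have h8 : ¬ ((blk P r a).card = 1 ∧ (blk P r b).card = 1) := fun h =>
    hab (blk_single hP hr hε ha0 hb0 h.1 h.2)
  obtain ⟨m, hm⟩ := blk_parity (P := P) (r := r) ha0 1
  obtain ⟨m', hm'⟩ := blk_parity (P := P) (r := r) hb0 1
  have h9 := blk_bound hP hr hε ha0
  have h10 := blk_bound hP hr hε hb0
  have h11 := blk_abs_le (P := P) (r := r) hb0 1
  have hdiv : (a ∣ b) → a = 1 := by
    intro hd
    apply gen_prim hr hr0 hgen
    intro y
    rw [← Int.dvd_natAbs]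
    rcases natAbs_mem hr y with h | h
    · rw [h]; exact dvd_zero _
    · rw [hA] at h
      simp only [Finset.mem_insert, Finset.mem_singleton] at h
      rcases h with h | h
      · rw [h]
      · rw [h]; exact_mod_cast hd
  obtain ⟨xb, hxb⟩ := Finset.card_pos.1 (show 0 < (blk P r b).card by omega)
  have hxb2 : (r xb).natAbs = b := (Finset.mem_filter.1 hxb).2
  generalize blkSum P r a 1 = ta at *
  generalize blkSum P r b 1 = tb at *
  generalize (blk P r a).card = ka at *
  generalize (blk P r b).card = kb at *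
  have hcases : (ka = 3 ∧ kb = 1) ∨ (ka = 4 ∧ kb = 1) ∨ (ka = 5 ∧ kb = 1) ∨ (ka = 3 ∧ kb = 3) := by
    omega
  rcases hcases with ⟨rfl, rfl⟩ | ⟨rfl, rfl⟩ | ⟨rfl, rfl⟩ | ⟨rfl, rfl⟩
  · exfalso
    have k1 := abs_le.1 (h9 (by norm_num))
    have k2 := abs_le.1 h11
    push_cast at k1 k2 hm hm'
    have k3 : ta = 1 ∨ ta = -1 := by omega
    have k4 : tb = 1 ∨ tb = -1 := by omega
    rcases k3 with rfl | rfl <;> rcases k4 with rfl | rfl <;> omega
  · left
    have k1 := abs_le.1 (h9 (by norm_num))
    have k2 := abs_le.1 h11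
    push_cast at k1 k2 hm hm' h2
    have k3 : ta = 0 ∨ ta = 2 ∨ ta = -2 := by omega
    have k4 : tb = 1 ∨ tb = -1 := by omega
    have hb2 : b = 2 * a := by
      rcases k3 with rfl | rfl | rfl <;> rcases k4 with rfl | rfl <;> omega
    have ha1 := hdiv ⟨2, by rw [hb2]; ring⟩
    subst ha1
    rw [hb2] at h2
    push_cast at h2
    omega
  · right
    have k1 := abs_le.1 (h9 (by norm_num))
    have k2 := abs_le.1 h11
    push_cast at k1 k2 hm hm' h2
    have k3 : ta = 1 ∨ ta = -1 ∨ ta = 3 ∨ ta = -3 := by omega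
    have k4 : tb = 1 ∨ tb = -1 := by omega
    have hb2 : b = 3 * a := by
      rcases k3 with rfl | rfl | rfl | rfl <;> rcases k4 with rfl | rfl <;> omega
    have ha1 := hdiv ⟨3, by rw [hb2]; ring⟩
    subst ha1
    refine ⟨?_, ?_⟩
    · rw [hb2] at h2
      push_cast at h2
      omega
    · rw [hb2] at hxb2
      have : r xb = 3 ∨ r xb = -3 := by omega
      rcases this with h | h
      · exact ⟨xb, by simp [pos, h]⟩
      · exact ⟨P.conj • xb, by simp only [pos]; rw [hr.odd, h]; rfl⟩
  · exfalso
    have k1 := abs_le.1 (h9 (by norm_num))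
    have k2 := abs_le.1 (h10 (by norm_num))
    push_cast at k1 k2 hm hm'
    have k3 : ta = 1 ∨ ta = -1 := by omega
    have k4 : tb = 1 ∨ tb = -1 := by omega
    rcases k3 with rfl | rfl <;> rcases k4 with rfl | rfl <;> omega

theorem weil_sizes (hP : Reduced P) (hr : Rel P r) (hr0 : ∃ y, r y ≠ 0)
    (hgen : ∀ d, Rel P d → ∃ k : ℤ, ∀ y, d y = k * r y) (hn : (Φ P).card ≤ 6) :
    size (pos r) = 4 ∨ size (pos r) = 6 ∨ (size (pos r) = 8 ∧ ∃ y, pos r y = 3) := by
  classical
  have hε := gen_sign hr hr0 hgen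
  have h3 := card_vals (P := P) (r := r)
  have hcA : (vals P r).card = 0 ∨ (vals P r).card = 1 ∨ (vals P r).card = 2 ∨ 2 < (vals P r).card := by
    omega
  rcases hcA with hA | hA | hA | hA
  · exfalso
    obtain ⟨y, hy⟩ := hr0
    rcases natAbs_mem hr y with h | h
    · exact hy (Int.natAbs_eq_zero.1 h)
    · rw [Finset.card_eq_zero.1 hA] at h
      exact absurd h (Finset.notMem_empty _)
  · obtain ⟨a, hA⟩ := Finset.card_eq_one.1 hA
    have ha : a ∈ vals P r := by rw [hA]; simp
    have ha0 : a ≠ 0 := (Finset.mem_erase.1 ha).1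
    have h1 := sum_blkSum hr
    have h2 := size_eq hr
    rw [hA, Finset.sum_singleton] at h1 h2 h3
    have h4 := blk_pos ha
    have h6 := blk_card_ne_two hP hr hε ha0
    obtain ⟨m, hm⟩ := blk_parity (P := P) (r := r) ha0 1
    have ht : blkSum P r a 1 = 0 := by
      rcases mul_eq_zero.1 h1 with h | h
      · exact absurd (by exact_mod_cast h) ha0
      · exact h
    have ha1 : a = 1 := by
      apply gen_prim hr hr0 hgen
      intro y
      rw [← Int.dvd_natAbs]
      rcases natAbs_mem hr y with h | h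
      · rw [h]; exact dvd_zero _
      · rw [hA] at h
        rw [Finset.mem_singleton.1 h]
    subst ha1
    rw [ht] at hm
    push_cast at h2
    omega
  · obtain ⟨a, b, hab, hA⟩ := Finset.card_eq_two.1 hA
    right
    by_cases hk : (blk P r b).card ≤ (blk P r a).card
    · exact two_case hP hr hr0 hgen hn hab hA hk
    · exact two_case hP hr hr0 hgen hn hab.symm (by rw [hA, Finset.pair_comm]) (by omega)
  · exfalso
    obtain ⟨a, b, c, ha, hb, hc, hab, hac, hbc⟩ := Finset.two_lt_card_iff.1 hA
    have ha0 : a ≠ 0 := (Finset.mem_erase.1 ha).1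
    have hb0 : b ≠ 0 := (Finset.mem_erase.1 hb).1
    have hc0 : c ≠ 0 := (Finset.mem_erase.1 hc).1
    have h4 : (blk P r a).card + (blk P r b).card + (blk P r c).card ≤ (Φ P).card := by
      have hsub : ({a, b, c} : Finset ℕ) ⊆ vals P r := by
        intro z hz
        simp only [Finset.mem_insert, Finset.mem_singleton] at hz
        rcases hz with rfl | rfl | rfl <;> assumption
      have h5 := Finset.sum_le_sum_of_subset (f := fun a => (blk P r a).card) hsub
      rw [Finset.sum_insert (by simp [hab, hac]), Finset.sum_pair hbc] at h5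
      omega
    have h5 := blk_pos ha
    have h6 := blk_pos hb
    have h7 := blk_pos hc
    have k1 := blk_card_ne_two hP hr hε ha0
    have k2 := blk_card_ne_two hP hr hε hb0
    have k3 := blk_card_ne_two hP hr hε hc0
    have l1 : ¬ ((blk P r a).card = 1 ∧ (blk P r b).card = 1) := fun h =>
      hab (blk_single hP hr hε ha0 hb0 h.1 h.2)
    have l2 : ¬ ((blk P r a).card = 1 ∧ (blk P r c).card = 1) := fun h =>
      hac (blk_single hP hr hε ha0 hc0 h.1 h.2)
    have l3 : ¬ ((blk P r b).card = 1 ∧ (blk P r c).card = 1) := fun h =>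
      hbc (blk_single hP hr hε hb0 hc0 h.1 h.2)
    omega

theorem pos_isWeil (hr : Rel P r) (hr0 : ∃ y, r y ≠ 0)
    (hgen : ∀ d, Rel P d → ∃ k : ℤ, ∀ y, d y = k * r y) : IsWeil P (pos r) := by
  have hε := gen_sign hr hr0 hgen
  refine ⟨pos_isHodge hr, pos_disj hr, ?_⟩
  let N : Subgroup Γ :=
    { carrier := {g | ∀ y, r (g • y) = r y}
      one_mem' := fun y => by rw [one_smul]
      mul_mem' := fun {g h} hg hh y => by
        simp only [Set.mem_ofPred_eq] at hg hh
        rw [mul_smul, hg, hh]
      inv_mem' := fun {g} hg y => by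
        simp only [Set.mem_ofPred_eq] at hg
        have := hg (g⁻¹ • y)
        rw [smul_inv_smul] at this
        exact this.symm }
  have hmem : ∀ g : Γ, g ∈ N ↔ ∀ y, r (g • y) = r y := fun g => Iff.rfl
  obtain ⟨y₀, hy₀⟩ := hr0
  refine ⟨N, ?_, ?_, ?_⟩
  · rw [Subgroup.index_eq_two_iff]
    refine ⟨P.conj, fun g => ?_⟩
    obtain ⟨ε, h1, h2⟩ := hε g
    have h3 : ∀ y, r ((g * P.conj) • y) = - (ε * r y) := by
      intro y; rw [mul_smul, P.comm, hr.odd, h2]
    rcases h1 with rfl | rfl
    · right
      refine ⟨(hmem g).2 fun y => by rw [h2]; ring, fun h => ?_⟩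
      have h4 := (hmem _).1 h y₀
      rw [h3] at h4
      omega
    · left
      refine ⟨(hmem _).2 fun y => by rw [h3]; ring, fun h => ?_⟩
      have h4 := (hmem _).1 h y₀
      rw [h2] at h4
      omega
  · intro h
    have h4 := (hmem _).1 h y₀
    rw [hr.odd] at h4
    omega
  · intro n hn y
    simp only [pos]
    rw [(hmem n).1 hn]

theorem decompose (hP : Reduced P) (hr : Rel P r)
    (hgen : ∀ d, Rel P d → ∃ k : ℤ, ∀ y, d y = k * r y) (c : Y → ℕ) (hc : IsHodge P c) :
    ∃ (k : ℕ) (p : Y → ℕ), IsPairs P p ∧ (c = p + k • pos r ∨ c = p + k • bar P (pos r)) := by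
  obtain ⟨k, hk⟩ := hgen _ (rel_of_isHodge hP hc)
  rcases le_total 0 k with h0 | h0
  · refine ⟨k.toNat, fun y => c y - k.toNat * pos r y, ?_, Or.inl ?_⟩
    · have hle : ∀ y, k.toNat * pos r y ≤ c y := by
        intro y
        have h1 := hk y
        simp only [bar] at h1
        rcases le_total 0 (r y) with h2 | h2
        · zify
          rw [Int.toNat_of_nonneg h0]
          simp only [pos]
          rw [Int.toNat_of_nonneg h2]
          omega
        · have : pos r y = 0 := by simp only [pos]; omega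
          rw [this, mul_zero]; exact Nat.zero_le _
      funext y
      simp only [bar]
      have h1 := hk y
      simp only [bar] at h1
      have h2 := pos_sub_bar hr y
      simp only [bar] at h2
      have h3 := hle y
      have h4 := hle (P.conj • y)
      zify [h3, h4]
      rw [Int.toNat_of_nonneg h0]
      rw [← h2] at h1
      linarith
    · have hle : ∀ y, k.toNat * pos r y ≤ c y := by
        intro y
        have h1 := hk y
        simp only [bar] at h1
        rcases le_total 0 (r y) with h2 | h2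
        · zify
          rw [Int.toNat_of_nonneg h0]
          simp only [pos]
          rw [Int.toNat_of_nonneg h2]
          omega
        · have : pos r y = 0 := by simp only [pos]; omega
          rw [this, mul_zero]; exact Nat.zero_le _
      funext y
      simp only [Pi.add_apply, Pi.smul_apply, smul_eq_mul]
      have := hle y
      omega
  · have hbar : ∀ y, bar P (pos r) y = (- r y).toNat := by
      intro y; simp only [bar, pos]; rw [hr.odd]
    have hle : ∀ y, (-k).toNat * bar P (pos r) y ≤ c y := by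
      intro y
      have h1 := hk y
      simp only [bar] at h1
      rw [hbar]
      rcases le_total (r y) 0 with h2 | h2
      · zify
        rw [Int.toNat_of_nonneg (by omega), Int.toNat_of_nonneg (by omega)]
        have : -k * -r y = k * r y := by ring
        rw [this]
        omega
      · have : (- r y).toNat = 0 := by omega
        rw [this, mul_zero]; exact Nat.zero_le _
    refine ⟨(-k).toNat, fun y => c y - (-k).toNat * bar P (pos r) y, ?_, Or.inr ?_⟩
    · funext y
      simp only [bar]
      have h1 := hk y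
      simp only [bar] at h1
      have h2 := pos_sub_bar hr y
      simp only [bar] at h2
      have h3 := hle y
      have h4 := hle (P.conj • y)
      simp only [bar] at h3 h4
      zify [h3, h4]
      rw [Int.toNat_of_nonneg (by omega)]
      rw [conj_conj hP]
      rw [← h2] at h1
      linarith
    · funext y
      simp only [Pi.add_apply, Pi.smul_apply, smul_eq_mul]
      have := hle y
      omega

/-- The classification of Hodge weights of CM pairs of degree at most twelve. -/
theorem classification (hP : Reduced P) (hY : Fintype.card Y ≤ 12) :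
    (∀ c, IsHodge P c → IsPairs P c) ∨
    (∃ w, IsWeil P w ∧ (size w = 4 ∨ size w = 6 ∨ (size w = 8 ∧ ∃ y, w y = 3)) ∧
      ∀ c, IsHodge P c → ∃ (k : ℕ) (p : Y → ℕ), IsPairs P p ∧
        (c = p + k • w ∨ c = p + k • bar P w)) ∨
    IsExceptional P := by
  classical
  have hn : (Φ P).card ≤ 6 := by
    have := card_eq (P := P)
    omega
  by_cases h0 : ∀ d, Rel P d → ∀ y, d y = 0
  · left
    intro c hc
    have h1 := h0 _ (rel_of_isHodge hP hc)
    funext y
    have h2 := h1 y
    omega
  right
  push Not at h0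
  obtain ⟨d₀, hd₀, hy₀⟩ := h0
  by_cases h2 : ∀ d e : Y → ℤ, Rel P d → Rel P e → ∃ p q : ℤ, (p ≠ 0 ∨ q ≠ 0) ∧
      ∀ y, p * d y + q * e y = 0
  · left
    obtain ⟨r, hr, hr0, hgen⟩ := exists_gen h2 ⟨d₀, hd₀, hy₀⟩
    exact ⟨pos r, pos_isWeil hr hr0 hgen, weil_sizes hP hr hr0 hgen hn, decompose hP hr hgen⟩
  · right
    push Not at h2
    obtain ⟨d, e, hd, he, h3⟩ := h2
    apply exceptional_of_two hP hd he _ hn
    intro p q hpq
    by_contra hcon
    obtain ⟨y, hy⟩ := h3 p q (by tauto)
    exact hy (hpq y)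

end Pool.Agent.H62R2.CM6
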