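import Pool.Agent.H62R2.CM6.Basic

/-! # The span of the sign vectors when there are two independent relations -/

set_option linter.unusedSectionVars false

namespace Pool.Agent.H62R2.CM6

variable {Γ Y : Type*} [Group Γ] [MulAction Γ Y] [Fintype Y] {P : CMPair Γ Y}

/-- The sign vector of `g`. -/
noncomputable def vec (P : CMPair Γ Y) (g : Γ) : Y → ℚ := fun y => (sg P (g • y) : ℚ)

/-- All sign vectors are combinations of those of `1, g₁, g₂, g₃`. -/
def Sp (P : CMPair Γ Y) (g₁ g₂ g₃ : Γ) : Prop :=
  ∀ g : Γ, ∃ a b c d : ℚ, ∀ y, (sg P (g • y) : ℚ) =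
    a * sg P y + b * sg P (g₁ • y) + c * sg P (g₂ • y) + d * sg P (g₃ • y)

/-- Two independent relations give two letters with nonzero determinant. -/
theorem exists_det {d e : Y → ℤ} (hd : Rel P d) (he : Rel P e)
    (hind : ∀ p q : ℤ, (∀ y, p * d y + q * e y = 0) → p = 0 ∧ q = 0) :
    ∃ x ∈ Φ P, ∃ y ∈ Φ P, x ≠ y ∧ d x * e y - e x * d y ≠ 0 := by
  have h1 : ∃ x ∈ Φ P, d x ≠ 0 := by
    by_contra hcon
    push Not at hcon
    have h2 : ∀ y, d y = 0 := Rel.eq_zero hd.odd hcon
    have := hind 1 0 (fun y => by rw [h2 y]; ring)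
    omega
  obtain ⟨x, hx, hdx⟩ := h1
  by_contra hcon
  push Not at hcon
  have h2 : ∀ y, (-(e x)) * d y + d x * e y = 0 := by
    have hr : ∀ y, (-(e x)) * d (P.conj • y) + d x * e (P.conj • y)
        = - ((-(e x)) * d y + d x * e y) := by
      intro y; rw [hd.odd, he.odd]; ring
    apply Rel.eq_zero (P := P) (d := fun y => (-(e x)) * d y + d x * e y) hr
    intro y hy
    by_cases hxy : x = y
    · subst hxy; ring
    · have := hcon x hx y hy hxy
      show (-(e x)) * d y + d x * e y = 0
      linarith
  have := hind _ _ h2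
  exact hdx this.2

theorem exists_span (hP : Reduced P) {d e : Y → ℤ} (hd : Rel P d) (he : Rel P e)
    (hind : ∀ p q : ℤ, (∀ y, p * d y + q * e y = 0) → p = 0 ∧ q = 0) (hn : (Φ P).card ≤ 6) :
    (Φ P).card = 6 ∧ ∃ g₁ g₂ g₃ : Γ, Sp P g₁ g₂ g₃ := by
  classical
  obtain ⟨x, hx, y, hy, hxy, hdet⟩ := exists_det hd he hind
  -- a basis of the span of the sign vectors containing the vector of `1`
  have hv1 : vec P 1 ≠ 0 := by
    intro h
    have h1 := congrFun h x
    simp only [vec, one_smul, Pi.zero_apply] at h1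
    rw [sg_Φ hx] at h1
    norm_num at h1
  have hli : LinearIndepOn ℚ (vec P) ({1} : Set Γ) := by
    rw [linearIndepOn_singleton_iff]
    exact hv1
  obtain ⟨b, -, hb1, hspan, hb⟩ := exists_linearIndepOn_extension hli (Set.subset_univ _)
  have h1b : (1 : Γ) ∈ b := hb1 rfl
  have hall : ∀ g : Γ, vec P g ∈ Submodule.span ℚ (vec P '' b) := fun g =>
    hspan ⟨g, Set.mem_univ g, rfl⟩
  have hprop : ∀ v ∈ Submodule.span ℚ (vec P '' b), (∀ z, v (P.conj • z) = - v z) ∧
      ∑ z ∈ Φ P, (d z : ℚ) * v z = 0 ∧ ∑ z ∈ Φ P, (e z : ℚ) * v z = 0 := by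
    intro v hv
    induction hv using Submodule.span_induction with
    | mem v hv =>
      obtain ⟨g, -, rfl⟩ := hv
      refine ⟨fun z => ?_, ?_, ?_⟩
      · simp only [vec]; rw [sg_conj']; push_cast; ring
      · have := hd.bal' g
        simp only [vec]; exact_mod_cast this
      · have := he.bal' g
        simp only [vec]; exact_mod_cast this
    | zero => simp
    | add u v _ _ hu hv =>
      refine ⟨fun z => ?_, ?_, ?_⟩
      · simp only [Pi.add_apply]; rw [hu.1, hv.1]; ring
      · simp only [Pi.add_apply, mul_add, Finset.sum_add_distrib]; rw [hu.2.1, hv.2.1]; ring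
      · simp only [Pi.add_apply, mul_add, Finset.sum_add_distrib]; rw [hu.2.2, hv.2.2]; ring
    | smul a v _ hv =>
      refine ⟨fun z => ?_, ?_, ?_⟩
      · simp only [Pi.smul_apply, smul_eq_mul]; rw [hv.1]; ring
      · have : ∑ z ∈ Φ P, (d z : ℚ) * (a • v) z = a * ∑ z ∈ Φ P, (d z : ℚ) * v z := by
          rw [Finset.mul_sum]; refine Finset.sum_congr rfl fun z _ => ?_
          simp only [Pi.smul_apply, smul_eq_mul]; ring
        rw [this, hv.2.1]; ring
      · have : ∑ z ∈ Φ P, (e z : ℚ) * (a • v) z = a * ∑ z ∈ Φ P, (e z : ℚ) * v z := by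
          rw [Finset.mul_sum]; refine Finset.sum_congr rfl fun z _ => ?_
          simp only [Pi.smul_apply, smul_eq_mul]; ring
        rw [this, hv.2.2]; ring
  -- restriction to the other letters
  let X' : Finset Y := Φ P \ {x, y}
  let f : (Y → ℚ) →ₗ[ℚ] (X' → ℚ) := LinearMap.funLeft ℚ ℚ (fun z : X' => (z : Y))
  have hker : ∀ u ∈ Submodule.span ℚ (vec P '' b), (∀ z ∈ X', u z = 0) → u = 0 := by
    intro u hu hz
    obtain ⟨h1, h2, h3⟩ := hprop u hu
    have hsub : ({x, y} : Finset Y) ⊆ Φ P := by
      intro z hz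
      rcases Finset.mem_insert.1 hz with h | h
      · rw [h]; exact hx
      · rw [Finset.mem_singleton.1 h]; exact hy
    have hsum : ∀ F : Y → ℚ, ∑ z ∈ Φ P, F z * u z = F x * u x + F y * u y := by
      intro F
      rw [← Finset.sum_pair (f := fun z => F z * u z) hxy]
      symm
      apply Finset.sum_subset hsub
      intro z hz1 hz2
      rw [hz z (Finset.mem_sdiff.2 ⟨hz1, hz2⟩), mul_zero]
    rw [hsum] at h2 h3
    have hdet' : ((d x : ℚ) * e y - e x * d y) ≠ 0 := by exact_mod_cast hdet
    have hux : u x = 0 := by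
      have : ((d x : ℚ) * e y - e x * d y) * u x = 0 := by linear_combination (e y : ℚ) * h2 - (d y : ℚ) * h3
      exact (mul_eq_zero.1 this).resolve_left hdet'
    have huy : u y = 0 := by
      have : ((d x : ℚ) * e y - e x * d y) * u y = 0 := by linear_combination (d x : ℚ) * h3 - (e x : ℚ) * h2
      exact (mul_eq_zero.1 this).resolve_left hdet'
    have hΦ : ∀ z ∈ Φ P, u z = 0 := by
      intro z hz1
      by_cases h : z ∈ ({x, y} : Finset Y)
      · rcases Finset.mem_insert.1 h with h | h
        · rw [h]; exact hux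
        · rw [Finset.mem_singleton.1 h]; exact huy
      · exact hz z (Finset.mem_sdiff.2 ⟨hz1, h⟩)
    funext z
    rcases mem_or (P := P) z with h | h
    · exact hΦ z h
    · have := hΦ _ h
      rw [h1] at this
      simpa using this
  have hinj : Set.InjOn f (Submodule.span ℚ (vec P '' b)) := by
    intro u hu v hv huv
    have : u - v = 0 := by
      apply hker _ (Submodule.sub_mem _ hu hv)
      intro z hz
      have h := congrFun huv ⟨z, hz⟩
      simp only [f, LinearMap.funLeft_apply] at h
      simp only [Pi.sub_apply]; linarith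
    exact sub_eq_zero.1 this
  have hb' : LinearIndependent ℚ (fun i : b => f (vec P i)) := hb.map_injOn f hinj
  have hfin : Finite b := hb'.finite_of_isNoetherian
  have : Fintype b := Fintype.ofFinite b
  have hcard1 : Fintype.card b ≤ (Φ P).card - 2 := by
    have h := hb'.fintype_card_le_finrank
    rw [Module.finrank_fintype_fun_eq_card, Fintype.card_coe] at h
    have h2 : X'.card = (Φ P).card - 2 := by
      rw [Finset.card_sdiff_of_subset]
      · rw [Finset.card_pair hxy]
      · intro z hz
        rcases Finset.mem_insert.1 hz with h | h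
        · rw [h]; exact hx
        · rw [Finset.mem_singleton.1 h]; exact hy
    rw [← h2]; exact h
  let B : Finset Γ := b.toFinset
  have hB1 : (1 : Γ) ∈ B := Set.mem_toFinset.2 h1b
  have hBcard : B.card = Fintype.card b := Set.toFinset_card b
  -- columns are different on `b`
  have hcol : ∀ z ∈ Φ P, ∀ z' ∈ Φ P, (∀ g ∈ B.erase 1, sg P (g • z) = sg P (g • z')) → z = z' := by
    intro z hz z' hz' h
    apply eq_of_sg hP
    intro g
    have hb2 : ∀ g ∈ b, sg P (g • z) = sg P (g • z') := by
      intro g hg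
      by_cases h1 : g = 1
      · subst h1; rw [one_smul, one_smul, sg_Φ hz, sg_Φ hz']
      · exact h g (Finset.mem_erase.2 ⟨h1, Set.mem_toFinset.2 hg⟩)
    have hv : ∀ v ∈ Submodule.span ℚ (vec P '' b), v z = v z' := by
      intro v hv
      induction hv using Submodule.span_induction with
      | mem v hv =>
        obtain ⟨g, hg, rfl⟩ := hv
        simp only [vec]; rw [hb2 g hg]
      | zero => rfl
      | add u v _ _ hu hv => simp only [Pi.add_apply]; rw [hu, hv]
      | smul a v _ hv => simp only [Pi.smul_apply, smul_eq_mul]; rw [hv]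
    have := hv _ (hall g)
    simp only [vec] at this
    exact_mod_cast this
  have hcard2 : (Φ P).card ≤ 2 ^ (B.erase 1).card := by
    let φ : Φ P → (B.erase 1 → Bool) := fun z g => decide (sg P ((g : Γ) • (z : Y)) = 1)
    have hφ : Function.Injective φ := by
      intro z z' hzz
      apply Subtype.ext
      apply hcol z z.2 z' z'.2
      intro g hg
      have h := congrFun hzz ⟨g, hg⟩
      simp only [φ, decide_eq_decide] at h
      rcases sg_cases P (g • (z : Y)) with h1 | h1 <;> rcases sg_cases P (g • (z' : Y)) with h2 | h2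
      · rw [h1, h2]
      · rw [h1, h2] at h; norm_num at h
      · rw [h1, h2] at h; norm_num at h
      · rw [h1, h2]
    have h := Fintype.card_le_of_injective φ hφ
    rw [Fintype.card_coe, Fintype.card_fun, Fintype.card_bool, Fintype.card_coe] at h
    exact h
  have hBe : (B.erase 1).card = B.card - 1 := Finset.card_erase_of_mem hB1
  have hBpos : 1 ≤ B.card := Finset.card_pos.2 ⟨1, hB1⟩
  have hm : (B.erase 1).card = 3 ∧ (Φ P).card = 6 := by
    have h4 : (B.erase 1).card ≤ 3 := by omega
    have h5 : 2 ≤ (Φ P).card := by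
      have h := Finset.card_le_card (show ({x, y} : Finset Y) ⊆ Φ P from by
        intro z hz
        rcases Finset.mem_insert.1 hz with h | h
        · rw [h]; exact hx
        · rw [Finset.mem_singleton.1 h]; exact hy)
      rwa [Finset.card_pair hxy] at h
    generalize (B.erase 1).card = m at *
    interval_cases m
    · norm_num at hcard2; omega
    · norm_num at hcard2; omega
    · norm_num at hcard2; omega
    · norm_num at hcard2; omega
  obtain ⟨g₁, g₂, g₃, -, -, -, hB3⟩ := Finset.card_eq_three.1 hm.1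
  refine ⟨hm.2, g₁, g₂, g₃, fun g => ?_⟩
  have key : ∀ v ∈ Submodule.span ℚ (vec P '' b), ∃ a b c d : ℚ, ∀ y, v y =
      a * sg P y + b * sg P (g₁ • y) + c * sg P (g₂ • y) + d * sg P (g₃ • y) := by
    intro v hv
    induction hv using Submodule.span_induction with
    | mem v hv =>
      obtain ⟨g, hg, rfl⟩ := hv
      by_cases h1 : g = 1
      · subst h1; exact ⟨1, 0, 0, 0, fun y => by simp [vec]⟩
      · have hg' : g ∈ B.erase 1 := Finset.mem_erase.2 ⟨h1, Set.mem_toFinset.2 hg⟩
        rw [hB3] at hg'
        simp only [Finset.mem_insert, Finset.mem_singleton] at hg'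
        rcases hg' with h | h | h
        · subst h; exact ⟨0, 1, 0, 0, fun y => by simp [vec]⟩
        · subst h; exact ⟨0, 0, 1, 0, fun y => by simp [vec]⟩
        · subst h; exact ⟨0, 0, 0, 1, fun y => by simp [vec]⟩
    | zero => exact ⟨0, 0, 0, 0, fun y => by simp⟩
    | add u v _ _ hu hv =>
      obtain ⟨a, b, c, d, h⟩ := hu
      obtain ⟨a', b', c', d', h'⟩ := hv
      exact ⟨a + a', b + b', c + c', d + d', fun y => by simp only [Pi.add_apply]; rw [h, h']; ring⟩
    | smul r v _ hv =>
      obtain ⟨a, b, c, d, h⟩ := hv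
      exact ⟨r * a, r * b, r * c, r * d, fun y => by
        simp only [Pi.smul_apply, smul_eq_mul]; rw [h]; ring⟩
  exact key _ (hall g)

end Pool.Agent.H62R2.CM6
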