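import Pool.Agent.H62R2.CM6.Weight

/-! # One relation up to multiples: Weil weights -/

set_option linter.unusedSectionVars false

namespace Pool.Agent.H62R2.CM6

variable {Γ Y : Type*} [Group Γ] [MulAction Γ Y] [Fintype Y] {P : CMPair Γ Y}

/-- A generator of the relations. -/
theorem exists_gen
    (hdep : ∀ d e : Y → ℤ, Rel P d → Rel P e → ∃ p q : ℤ, (p ≠ 0 ∨ q ≠ 0) ∧
      ∀ y, p * d y + q * e y = 0)
    (hne : ∃ d : Y → ℤ, Rel P d ∧ ∃ y, d y ≠ 0) :
    ∃ r : Y → ℤ, Rel P r ∧ (∃ y, r y ≠ 0) ∧ ∀ d, Rel P d → ∃ k : ℤ, ∀ y, d y = k * r y := by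
  classical
  let Q : ℕ → Prop := fun n => ∃ r : Y → ℤ, Rel P r ∧ (∃ y, r y ≠ 0) ∧ ∑ y, (r y).natAbs = n
  have hQ : ∃ n, Q n := by
    obtain ⟨d, hd, hy⟩ := hne
    exact ⟨_, d, hd, hy, rfl⟩
  obtain ⟨r, hr, hr0, hrn⟩ := Nat.find_spec hQ
  refine ⟨r, hr, hr0, ?_⟩
  intro d hd
  obtain ⟨p, q, hpq, hlin⟩ := hdep r d hr hd
  obtain ⟨y₀, hy₀⟩ := hr0
  have hq : q ≠ 0 := by
    rintro rfl
    have h1 := hlin y₀
    have h2 : p * r y₀ = 0 := by linarith
    rcases mul_eq_zero.1 h2 with h3 | h3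
    · rcases hpq with h4 | h4
      · exact h4 h3
      · exact h4 rfl
    · exact hy₀ h3
  -- k = - round (p / q)
  obtain ⟨k, hk⟩ : ∃ k : ℤ, 2 * |p + q * k| ≤ |q| := by
    refine ⟨- round ((p : ℚ) / q), ?_⟩
    have h1 := abs_sub_round ((p : ℚ) / q)
    have hq' : (q : ℚ) ≠ 0 := by exact_mod_cast hq
    have h2 : |(p : ℚ) + q * (-(round ((p : ℚ) / q)) : ℤ)| = |(q : ℚ)| * |(p : ℚ) / q - round ((p : ℚ) / q)| := by
      rw [← abs_mul]; congr 1; push_cast; field_simp; ring
    have h3 : 2 * |(p : ℚ) + q * (-(round ((p : ℚ) / q)) : ℤ)| ≤ |(q : ℚ)| := by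
      rw [h2]
      have := abs_nonneg (q : ℚ)
      nlinarith
    exact_mod_cast h3
  refine ⟨k, ?_⟩
  by_contra hcon
  push Not at hcon
  obtain ⟨y₁, hy₁⟩ := hcon
  -- the relation d - k r
  have hd' : Rel P (fun y => 1 * d y + (-k) * r y) := hd.lin hr 1 (-k)
  have hmin := Nat.find_min' hQ (m := ∑ y, (1 * d y + (-k) * r y).natAbs)
    ⟨_, hd', ⟨y₁, by intro h; apply hy₁; linarith⟩, rfl⟩
  have hpt : ∀ y, 2 * (1 * d y + (-k) * r y).natAbs ≤ (r y).natAbs := by
    intro y
    have h1 := hlin y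
    have h2 : q * (1 * d y + (-k) * r y) = - ((p + q * k) * r y) := by
      linear_combination h1
    have h3 : |q| * |1 * d y + (-k) * r y| = |p + q * k| * |r y| := by
      rw [← abs_mul, h2, abs_neg, abs_mul]
    have h4 : |q| * (2 * |1 * d y + (-k) * r y|) ≤ |q| * |r y| := by
      have : |q| * (2 * |1 * d y + (-k) * r y|) = (2 * |p + q * k|) * |r y| := by
        linear_combination 2 * h3
      rw [this]
      exact mul_le_mul_of_nonneg_right hk (abs_nonneg _)
    have h5 : 2 * |1 * d y + (-k) * r y| ≤ |r y| := le_of_mul_le_mul_left h4 (abs_pos.2 hq)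
    zify
    exact h5
  have hsum : 2 * ∑ y, (1 * d y + (-k) * r y).natAbs ≤ ∑ y, (r y).natAbs := by
    rw [Finset.mul_sum]
    exact Finset.sum_le_sum fun y _ => hpt y
  have hpos : 0 < ∑ y, (r y).natAbs := by
    refine Finset.sum_pos' (fun _ _ => Nat.zero_le _) ⟨y₀, Finset.mem_univ _, ?_⟩
    exact Int.natAbs_pos.2 hy₀
  rw [← hrn] at hmin
  omega

variable {r : Y → ℤ}

theorem gen_sign (hr : Rel P r) (hr0 : ∃ y, r y ≠ 0)
    (hgen : ∀ d, Rel P d → ∃ k : ℤ, ∀ y, d y = k * r y) (g : Γ) :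
    ∃ ε : ℤ, (ε = 1 ∨ ε = -1) ∧ ∀ y, r (g • y) = ε * r y := by
  obtain ⟨k, hk⟩ := hgen _ (hr.translate g)
  obtain ⟨k', hk'⟩ := hgen _ (hr.translate g⁻¹)
  obtain ⟨y₀, hy₀⟩ := hr0
  refine ⟨k, ?_, hk⟩
  have h1 : r y₀ = k * (k' * r y₀) := by
    have h2 := hk (g⁻¹ • y₀)
    simp only [smul_inv_smul] at h2
    have h3 : r (g⁻¹ • y₀) = k' * r y₀ := hk' y₀
    rw [h3] at h2
    exact h2
  have h4 : k * k' = 1 := by
    have h5 : (k * k' - 1) * r y₀ = 0 := by linarith
    rcases mul_eq_zero.1 h5 with h6 | h6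
    · omega
    · exact absurd h6 hy₀
  exact Int.eq_one_or_neg_one_of_mul_eq_one h4

/-- The generator is primitive. -/
theorem gen_prim (hr : Rel P r) (hr0 : ∃ y, r y ≠ 0)
    (hgen : ∀ d, Rel P d → ∃ k : ℤ, ∀ y, d y = k * r y) (a : ℕ) (ha : ∀ y, (a : ℤ) ∣ r y) :
    a = 1 := by
  choose s hs using ha
  obtain ⟨y₀, hy₀⟩ := hr0
  have ha0 : (a : ℤ) ≠ 0 := by
    intro h
    apply hy₀
    rw [hs y₀, h, zero_mul]
  have hsr : Rel P s := by
    constructor
    · intro y
      have h1 := hr.odd y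
      rw [hs, hs y] at h1
      have : (a : ℤ) * (s (P.conj • y) + s y) = 0 := by linarith
      rcases mul_eq_zero.1 this with h | h
      · exact absurd h ha0
      · linarith
    · intro g
      have h1 := hr.bal g
      have h2 : ∑ y, r y * sg P (g • y) = a * ∑ y, s y * sg P (g • y) := by
        rw [Finset.mul_sum]
        refine Finset.sum_congr rfl fun y _ => ?_
        rw [hs]; ring
      rw [h2] at h1
      exact (mul_eq_zero.1 h1).resolve_left ha0
  obtain ⟨k, hk⟩ := hgen s hsr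
  have h3 : (1 - a * k) * r y₀ = 0 := by
    have h4 := hs y₀
    rw [hk y₀] at h4
    linarith
  rcases mul_eq_zero.1 h3 with h5 | h5
  · have h6 : (a : ℤ) * k = 1 := by linarith
    rcases Int.eq_one_or_neg_one_of_mul_eq_one h6 with h7 | h7
    · exact_mod_cast h7
    · omega
  · exact absurd h5 hy₀

/-- The letters with a given absolute value of the coefficient. -/
noncomputable def blk (P : CMPair Γ Y) (r : Y → ℤ) (a : ℕ) : Finset Y :=
  (Φ P).filter (fun x => (r x).natAbs = a)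

/-- The signed sum over a block. -/
noncomputable def blkSum (P : CMPair Γ Y) (r : Y → ℤ) (a : ℕ) (g : Γ) : ℤ :=
  ∑ x ∈ blk P r a, (r x).sign * sg P (g • x)

theorem blkSum_eq (hr : Rel P r) (a : ℕ) (g : Γ) {ε : ℤ} (hε : ε = 1 ∨ ε = -1)
    (h : ∀ y, r (g • y) = ε * r y) : blkSum P r a g = ε * blkSum P r a 1 := by
  classical
  let K : Y → ℤ := fun y => if (r y).natAbs = a then (r y).sign else 0
  have hKodd : ∀ y, K (P.conj • y) = - K y := by
    intro y
    simp only [K]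
    rw [hr.odd, Int.natAbs_neg, Int.sign_neg]
    split_ifs <;> ring
  have hKg : ∀ y, K (g • y) = ε * K y := by
    intro y
    simp only [K]
    rw [h]
    rcases hε with rfl | rfl
    · simp
    · simp only [neg_mul, one_mul, Int.natAbs_neg, Int.sign_neg]
      split_ifs <;> ring
  have h1 : ∀ g : Γ, ∑ y, K y * sg P (g • y) = 2 * blkSum P r a g := by
    intro g
    rw [sum_even (P := P)]
    · congr 1
      rw [blkSum, blk, Finset.sum_filter]
      refine Finset.sum_congr rfl fun y _ => ?_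
      simp only [K]
      split_ifs <;> ring
    · intro y
      rw [hKodd, sg_conj']; ring
  have h2 := sum_translate g (fun y => K y * sg P y)
  have h3 := h1 g
  have h4 := h1 1
  simp only [one_smul] at h4
  have h5 : ∑ y, K (g • y) * sg P (g • y) = ε * ∑ y, K y * sg P (g • y) := by
    rw [Finset.mul_sum]
    refine Finset.sum_congr rfl fun y _ => ?_
    rw [hKg]; ring
  rw [h5, h3, h4] at h2
  have hee : ε * ε = 1 := by rcases hε with rfl | rfl <;> norm_num
  have : blkSum P r a g = ε * (ε * blkSum P r a g) := by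
    rw [← mul_assoc, hee, one_mul]
  rw [this]
  congr 1
  linarith

theorem sign_cases {x : ℤ} (h : x ≠ 0) : x.sign = 1 ∨ x.sign = -1 := by
  rcases lt_or_gt_of_ne h with h1 | h1
  · right; exact Int.sign_eq_neg_one_of_neg h1
  · left; exact Int.sign_eq_one_of_pos h1

theorem blk_ne {a : ℕ} (ha : a ≠ 0) {x : Y} (hx : x ∈ blk P r a) : r x ≠ 0 := by
  intro h
  have := (Finset.mem_filter.1 hx).2
  rw [h] at this
  exact ha this.symm

theorem exists_sep (hP : Reduced P) {x y : Y} (hxy : x ≠ y) :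
    ∃ g : Γ, sg P (g • x) = - sg P (g • y) := by
  by_contra hcon
  push Not at hcon
  apply hxy
  apply eq_of_sg hP
  intro g
  rcases sg_cases P (g • x) with h | h <;> rcases sg_cases P (g • y) with h' | h'
  · rw [h, h']
  · exact absurd (by rw [h, h']; norm_num) (hcon g)
  · exact absurd (by rw [h, h']) (hcon g)
  · rw [h, h']

/-- Bound for signed sums in which two terms cancel. -/
theorem abs_sum_le {S : Finset Y} {f : Y → ℤ} (hf : ∀ x ∈ S, f x = 1 ∨ f x = -1) {x y : Y}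
    (hx : x ∈ S) (hy : y ∈ S) (hxy : x ≠ y) (hc : f x + f y = 0) :
    |∑ z ∈ S, f z| ≤ (S.card : ℤ) - 2 := by
  classical
  have hy' : y ∈ S.erase x := Finset.mem_erase.2 ⟨hxy.symm, hy⟩
  have h1 : ∑ z ∈ S, f z = f x + (f y + ∑ z ∈ (S.erase x).erase y, f z) := by
    rw [Finset.add_sum_erase _ _ hy', Finset.add_sum_erase _ _ hx]
  have h2 : ∑ z ∈ S, f z = ∑ z ∈ (S.erase x).erase y, f z := by linarith
  rw [h2]
  have h3 : ((S.erase x).erase y).card = S.card - 2 := by
    rw [Finset.card_erase_of_mem hy', Finset.card_erase_of_mem hx]; omega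
  have h4 : 2 ≤ S.card := by
    have := Finset.card_le_card (show ({x, y} : Finset Y) ⊆ S from by
      intro z hz
      rcases Finset.mem_insert.1 hz with h | h
      · rw [h]; exact hx
      · rw [Finset.mem_singleton.1 h]; exact hy)
    rwa [Finset.card_pair hxy] at this
  calc |∑ z ∈ (S.erase x).erase y, f z| ≤ ∑ z ∈ (S.erase x).erase y, |f z| :=
        Finset.abs_sum_le_sum_abs _ _
    _ ≤ ∑ z ∈ (S.erase x).erase y, (1 : ℤ) := by
        refine Finset.sum_le_sum fun z hz => ?_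
        have hzS : z ∈ S := Finset.mem_of_mem_erase (Finset.mem_of_mem_erase hz)
        rcases hf z hzS with h | h <;> rw [h] <;> norm_num
    _ = (S.card : ℤ) - 2 := by
        rw [Finset.sum_const, h3]; simp; omega

end Pool.Agent.H62R2.CM6
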