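import Pool.Agent.H62R2.CM6.TwoHomDefs
import Pool.Agent.H62R2.CM6.Blocks

/-! # CM pairs with a two-homogeneous group -/

set_option linter.unusedSectionVars false

namespace Pool.Agent.H62R2.CM6

variable {Γ Y : Type*} [Group Γ] [MulAction Γ Y] [Fintype Y] {P : CMPair Γ Y}

/-- The set of sign functions. -/
def signs (P : CMPair Γ Y) : Set (Y → ℤ) := {f | ∃ g : Γ, f = fun y => sg P (g • y)}

theorem signs_finite : (signs P).Finite := by
  classical
  refine Set.Finite.subset (Fintype.piFinset (fun _ : Y => ({1, -1} : Finset ℤ))).finite_toSet ?_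
  rintro f ⟨g, rfl⟩
  simp only [Finset.mem_coe, Fintype.mem_piFinset, Finset.mem_insert, Finset.mem_singleton]
  intro y
  exact sg_cases P _

/-- The finite set of sign functions. -/
noncomputable def V (P : CMPair Γ Y) : Finset (Y → ℤ) := (signs_finite (P := P)).toFinset

theorem mem_V {f : Y → ℤ} : f ∈ V P ↔ ∃ g : Γ, f = fun y => sg P (g • y) := by
  simp [V, signs]

theorem V_cases {f : Y → ℤ} (hf : f ∈ V P) (y : Y) : f y = 1 ∨ f y = -1 := by
  obtain ⟨g, rfl⟩ := mem_V.1 hf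
  exact sg_cases P _

theorem V_odd {f : Y → ℤ} (hf : f ∈ V P) (y : Y) : f (P.conj • y) = - f y := by
  obtain ⟨g, rfl⟩ := mem_V.1 hf
  exact sg_conj' P g y

theorem V_nonempty : 0 < (V P).card := Finset.card_pos.2 ⟨_, mem_V.2 ⟨1, rfl⟩⟩

theorem V_smul {f : Y → ℤ} (hf : f ∈ V P) (k : Γ) : (fun y => f (k • y)) ∈ V P := by
  obtain ⟨g, rfl⟩ := mem_V.1 hf
  exact mem_V.2 ⟨g * k, by funext y; rw [mul_smul]⟩

/-- The Gram matrix of the letters. -/
noncomputable def gram (P : CMPair Γ Y) (y z : Y) : ℤ := ∑ f ∈ V P, f y * f z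

theorem gram_self (y : Y) : gram P y y = (V P).card := by
  have : ∀ f ∈ V P, f y * f y = 1 := by
    intro f hf
    rcases V_cases hf y with h | h <;> rw [h] <;> norm_num
  rw [gram, Finset.sum_congr rfl this]; simp

theorem gram_comm (y z : Y) : gram P y z = gram P z y := by
  unfold gram
  exact Finset.sum_congr rfl fun f _ => mul_comm _ _

theorem gram_conj (y z : Y) : gram P (P.conj • y) z = - gram P y z := by
  unfold gram
  rw [← Finset.sum_neg_distrib]
  refine Finset.sum_congr rfl fun f hf => ?_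
  rw [V_odd hf]; ring

theorem gram_conj' (y z : Y) : gram P y (P.conj • z) = - gram P y z := by
  rw [gram_comm, gram_conj, gram_comm]

theorem gram_smul (k : Γ) (y z : Y) : gram P (k • y) (k • z) = gram P y z := by
  classical
  unfold gram
  refine Finset.sum_bij' (fun f _ => fun y => f (k • y)) (fun f _ => fun y => f (k⁻¹ • y)) ?_ ?_ ?_ ?_ ?_
  · intro f hf; exact V_smul hf k
  · intro f hf; exact V_smul hf k⁻¹
  · intro f _; funext y; simp
  · intro f _; funext y; simp
  · intro f _; rfl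

/-- Nontrivial pairs of letters. -/
def Ntr (P : CMPair Γ Y) (y z : Y) : Prop := z ≠ y ∧ z ≠ P.conj • y

theorem Ntr.symm (hP : Reduced P) {y z : Y} (h : Ntr P y z) : Ntr P z y := by
  refine ⟨fun h2 => h.1 h2.symm, fun h2 => h.2 ?_⟩
  rw [h2, conj_conj hP]

theorem ntr_conj (hP : Reduced P) {y z : Y} : Ntr P (P.conj • y) z ↔ Ntr P y z := by
  unfold Ntr
  rw [conj_conj hP]
  tauto

theorem ntr_smul {k : Γ} {y z : Y} : Ntr P (k • y) (k • z) ↔ Ntr P y z := by
  unfold Ntr
  rw [← P.comm]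
  simp

theorem ntr_of_mem {y z : Y} (hy : y ∈ Φ P) (hz : z ∈ Φ P) (h : z ≠ y) : Ntr P y z := by
  refine ⟨h, fun h2 => ?_⟩
  have h3 := sg_conj P y
  rw [← h2, sg_Φ hy, sg_Φ hz] at h3
  norm_num at h3

open scoped Classical in
/-- The matrix of signs of the Gram matrix. -/
noncomputable def C (P : CMPair Γ Y) (y z : Y) : ℤ := if Ntr P y z then (gram P y z).sign else 0

theorem C_comm (hP : Reduced P) (y z : Y) : C P y z = C P z y := by
  classical
  unfold C
  have : Ntr P y z ↔ Ntr P z y := ⟨fun h => h.symm hP, fun h => h.symm hP⟩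
  by_cases h : Ntr P y z
  · rw [if_pos h, if_pos (this.1 h), gram_comm]
  · rw [if_neg h, if_neg (fun h2 => h (this.2 h2))]

theorem C_conj (hP : Reduced P) (y z : Y) : C P (P.conj • y) z = - C P y z := by
  classical
  unfold C
  by_cases h : Ntr P y z
  · rw [if_pos h, if_pos ((ntr_conj hP).2 h), gram_conj, Int.sign_neg]
  · rw [if_neg h, if_neg (fun h2 => h ((ntr_conj hP).1 h2))]; ring

theorem C_conj' (hP : Reduced P) (y z : Y) : C P y (P.conj • z) = - C P y z := by
  rw [C_comm hP, C_conj hP, C_comm hP]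

theorem C_smul (k : Γ) (y z : Y) : C P (k • y) (k • z) = C P y z := by
  classical
  unfold C
  by_cases h : Ntr P y z
  · rw [if_pos h, if_pos (ntr_smul.2 h), gram_smul]
  · rw [if_neg h, if_neg (fun h2 => h (ntr_smul.1 h2))]

theorem C_self (y : Y) : C P y y = 0 := by
  classical
  unfold C
  rw [if_neg]
  intro h
  exact h.1 rfl

/-- The square of `C`. -/
noncomputable def D (P : CMPair Γ Y) (y z : Y) : ℤ := ∑ t ∈ Φ P, C P y t * C P t z

theorem D_comm (hP : Reduced P) (y z : Y) : D P y z = D P z y := by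
  unfold D
  refine Finset.sum_congr rfl fun t _ => ?_
  rw [C_comm hP y t, C_comm hP t z]; ring

theorem D_conj (hP : Reduced P) (y z : Y) : D P (P.conj • y) z = - D P y z := by
  unfold D
  rw [← Finset.sum_neg_distrib]
  refine Finset.sum_congr rfl fun t _ => ?_
  rw [C_conj hP]; ring

theorem D_conj' (hP : Reduced P) (y z : Y) : D P y (P.conj • z) = - D P y z := by
  rw [D_comm hP, D_conj hP, D_comm hP]

theorem two_D (hP : Reduced P) (y z : Y) : ∑ t, C P y t * C P t z = 2 * D P y z := by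
  apply sum_even
  intro t
  rw [C_conj hP, C_conj' hP]; ring

theorem D_smul (hP : Reduced P) (k : Γ) (y z : Y) : D P (k • y) (k • z) = D P y z := by
  have h1 := two_D hP (k • y) (k • z)
  have h2 := two_D hP y z
  have h3 := sum_translate k (fun t => C P (k • y) t * C P t (k • z))
  simp only [C_smul] at h3
  rw [h1, h2] at h3
  omega

/-- Transport of a relation between pairs. -/
theorem transport (hP : Reduced P) (hT : TwoHomogeneous P) (Q : Y → Y → Prop)
    (hconj : ∀ y z, Q (P.conj • y) z ↔ Q y z) (hsymm : ∀ y z, Q y z ↔ Q z y)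
    (hsmul : ∀ (k : Γ) y z, Q (k • y) (k • z) ↔ Q y z) {y z y' z' : Y} (h : Ntr P y z)
    (h' : Ntr P y' z') (hQ : Q y z) : Q y' z' := by
  obtain ⟨g, hg⟩ := hT y z y' z' h.1 h.2 h'.1 h'.2
  have hQg := (hsmul g y z).2 hQ
  have hconj' : ∀ y z, Q y (P.conj • z) ↔ Q y z := by
    intro y z; rw [hsymm, hconj, hsymm]
  rcases hg with ⟨h1 | h1, h2 | h2⟩ | ⟨h1 | h1, h2 | h2⟩ <;> rw [h1, h2] at hQg
  · exact hQg
  · exact (hconj' _ _).1 hQg
  · exact (hconj _ _).1 hQg
  · exact (hconj' _ _).1 ((hconj _ _).1 hQg)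
  · exact (hsymm _ _).1 hQg
  · exact (hsymm _ _).1 ((hconj' _ _).1 hQg)
  · exact (hsymm _ _).1 ((hconj _ _).1 hQg)
  · exact (hsymm _ _).1 ((hconj' _ _).1 ((hconj _ _).1 hQg))

/-- The absolute value of the Gram matrix is constant off the diagonal. -/
theorem exists_m (hP : Reduced P) (hT : TwoHomogeneous P) :
    ∃ m : ℤ, 0 ≤ m ∧ ∀ y z, Ntr P y z → |gram P y z| = m := by
  classical
  by_cases h : ∃ y z, Ntr P y z
  · obtain ⟨y, z, h⟩ := h
    refine ⟨|gram P y z|, abs_nonneg _, fun y' z' h' => ?_⟩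
    refine transport hP hT (fun a b => |gram P a b| = |gram P y z|) ?_ ?_ ?_ h h' rfl
    · intro a b; rw [gram_conj, abs_neg]
    · intro a b; rw [gram_comm]
    · intro k a b; rw [gram_smul]
  · refine ⟨0, le_refl _, fun y z hyz => absurd ⟨y, z, hyz⟩ h⟩

theorem gram_eq {m : ℤ} (hm : ∀ y z, Ntr P y z → |gram P y z| = m) {y z : Y} (h : Ntr P y z) :
    gram P y z = m * C P y z := by
  classical
  unfold C
  rw [if_pos h, ← hm y z h, mul_comm, Int.sign_mul_abs]

theorem C_cases {m : ℤ} (hm0 : 0 < m) (hm : ∀ y z, Ntr P y z → |gram P y z| = m) {y z : Y}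
    (h : Ntr P y z) : C P y z = 1 ∨ C P y z = -1 := by
  classical
  unfold C
  rw [if_pos h]
  apply sign_cases
  intro h0
  have := hm y z h
  rw [h0, abs_zero] at this
  omega

theorem exists_mu (hP : Reduced P) (hT : TwoHomogeneous P) {m : ℤ} (hm0 : 0 < m)
    (hm : ∀ y z, Ntr P y z → |gram P y z| = m) :
    ∃ μ : ℤ, ∀ y z, Ntr P y z → D P y z = μ * C P y z := by
  classical
  by_cases h : ∃ y z, Ntr P y z
  · obtain ⟨y, z, h⟩ := h
    refine ⟨D P y z * C P y z, fun y' z' h' => ?_⟩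
    refine transport hP hT (fun a b => D P a b = D P y z * C P y z * C P a b) ?_ ?_ ?_ h h' ?_
    · intro a b
      rw [D_conj hP, C_conj hP]
      constructor <;> intro h <;> linarith
    · intro a b; rw [D_comm hP, C_comm hP a b]
    · intro k a b; rw [D_smul hP, C_smul]
    · rcases C_cases hm0 hm h with h1 | h1 <;> rw [h1] <;> ring
  · exact ⟨0, fun y z hyz => absurd ⟨y, z, hyz⟩ h⟩

/-- Sums of the matrix `gram` over the type. -/
theorem sum_gram {m : ℤ} (hm : ∀ y z, Ntr P y z → |gram P y z| = m) (d : Y → ℤ) {y : Y}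
    (hy : y ∈ Φ P) :
    ∑ z ∈ Φ P, gram P y z * d z = m * ∑ z ∈ Φ P, C P y z * d z + (V P).card * d y := by
  classical
  rw [← Finset.add_sum_erase _ _ hy, ← Finset.add_sum_erase (Φ P) (fun z => C P y z * d z) hy,
    C_self, gram_self]
  have : ∑ z ∈ (Φ P).erase y, gram P y z * d z = m * ∑ z ∈ (Φ P).erase y, C P y z * d z := by
    rw [Finset.mul_sum]
    refine Finset.sum_congr rfl fun z hz => ?_
    rw [gram_eq hm (ntr_of_mem hy (Finset.mem_of_mem_erase hz) (Finset.ne_of_mem_erase hz))]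
    ring
  rw [this]; ring

theorem D_self {m : ℤ} (hP : Reduced P) (hm0 : 0 < m) (hm : ∀ y z, Ntr P y z → |gram P y z| = m)
    {y : Y} (hy : y ∈ Φ P) : D P y y = (Φ P).card - 1 := by
  classical
  unfold D
  rw [← Finset.add_sum_erase _ _ hy, C_self]
  have : ∀ t ∈ (Φ P).erase y, C P y t * C P t y = 1 := by
    intro t ht
    rw [C_comm hP t y]
    rcases C_cases hm0 hm (ntr_of_mem hy (Finset.mem_of_mem_erase ht) (Finset.ne_of_mem_erase ht))
      with h | h <;> rw [h] <;> norm_num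
  rw [Finset.sum_congr rfl this, Finset.sum_const, Finset.card_erase_of_mem hy]
  have hpos : 1 ≤ (Φ P).card := Finset.card_pos.2 ⟨y, hy⟩
  simp
  push_cast [hpos]
  ring

/-- `C² = (n - 1) + μ C`. -/
theorem sum_CC {m μ : ℤ} (hP : Reduced P) (hm0 : 0 < m)
    (hm : ∀ y z, Ntr P y z → |gram P y z| = m)
    (hμ : ∀ y z, Ntr P y z → D P y z = μ * C P y z) (d : Y → ℤ) {y : Y} (hy : y ∈ Φ P) :
    ∑ t ∈ Φ P, C P y t * ∑ z ∈ Φ P, C P t z * d z
      = ((Φ P).card - 1) * d y + μ * ∑ z ∈ Φ P, C P y z * d z := by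
  classical
  have h1 : ∑ t ∈ Φ P, C P y t * ∑ z ∈ Φ P, C P t z * d z = ∑ z ∈ Φ P, D P y z * d z := by
    simp only [Finset.mul_sum, D, Finset.sum_mul]
    rw [Finset.sum_comm]
    refine Finset.sum_congr rfl fun z _ => Finset.sum_congr rfl fun t _ => ?_
    ring
  rw [h1, ← Finset.add_sum_erase _ _ hy, ← Finset.add_sum_erase (Φ P) (fun z => C P y z * d z) hy,
    C_self, D_self hP hm0 hm hy]
  have : ∑ z ∈ (Φ P).erase y, D P y z * d z = μ * ∑ z ∈ (Φ P).erase y, C P y z * d z := by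
    rw [Finset.mul_sum]
    refine Finset.sum_congr rfl fun z hz => ?_
    rw [hμ _ _ (ntr_of_mem hy (Finset.mem_of_mem_erase hz) (Finset.ne_of_mem_erase hz))]
    ring
  rw [this]; ring

end Pool.Agent.H62R2.CM6
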