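import Pool.Agent.H62R2.CM6.TwoHom

/-! # Eigenvalues -/

set_option linter.unusedSectionVars false

namespace Pool.Agent.H62R2.CM6

variable {Γ Y : Type*} [Group Γ] [MulAction Γ Y] [Fintype Y] {P : CMPair Γ Y}

theorem gram_rel {d : Y → ℤ} (h : ∀ f ∈ V P, ∑ z ∈ Φ P, f z * d z = 0) (y : Y) :
    ∑ z ∈ Φ P, gram P y z * d z = 0 := by
  have h1 : ∑ z ∈ Φ P, gram P y z * d z = ∑ f ∈ V P, f y * ∑ z ∈ Φ P, f z * d z := by
    simp only [gram, Finset.mul_sum, Finset.sum_mul]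
    rw [Finset.sum_comm]
    refine Finset.sum_congr rfl fun f _ => Finset.sum_congr rfl fun z _ => ?_
    ring
  rw [h1]
  exact Finset.sum_eq_zero fun f hf => by rw [h f hf, mul_zero]

theorem rel_of_gram {d : Y → ℤ} (h : ∀ y ∈ Φ P, ∑ z ∈ Φ P, gram P y z * d z = 0) :
    ∀ f ∈ V P, ∑ z ∈ Φ P, f z * d z = 0 := by
  have h1 : ∑ y ∈ Φ P, d y * ∑ z ∈ Φ P, gram P y z * d z
      = ∑ f ∈ V P, (∑ z ∈ Φ P, f z * d z) ^ 2 := by
    simp only [gram, Finset.mul_sum, Finset.sum_mul, sq]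
    have h2 : ∀ y ∈ Φ P, ∑ z ∈ Φ P, ∑ f ∈ V P, d y * (f y * f z * d z)
        = ∑ f ∈ V P, ∑ z ∈ Φ P, d y * (f y * f z * d z) := fun y _ => Finset.sum_comm
    rw [Finset.sum_congr rfl h2, Finset.sum_comm]
    refine Finset.sum_congr rfl fun f _ => ?_
    refine Finset.sum_congr rfl fun y _ => Finset.sum_congr rfl fun z _ => ?_
    ring
  have h3 : ∑ y ∈ Φ P, d y * ∑ z ∈ Φ P, gram P y z * d z = 0 :=
    Finset.sum_eq_zero fun y hy => by rw [h y hy, mul_zero]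
  rw [h3] at h1
  have h4 := (Finset.sum_eq_zero_iff_of_nonneg (fun f _ => sq_nonneg _)).1 h1.symm
  intro f hf
  exact pow_eq_zero_iff (n := 2) (by norm_num) |>.1 (h4 f hf)

theorem rel_V {d : Y → ℤ} (hd : Rel P d) : ∀ f ∈ V P, ∑ z ∈ Φ P, f z * d z = 0 := by
  intro f hf
  obtain ⟨g, rfl⟩ := mem_V.1 hf
  rw [← hd.bal' g]
  exact Finset.sum_congr rfl fun z _ => mul_comm _ _

variable {m μ : ℤ}

theorem rel_C (hm : ∀ y z, Ntr P y z → |gram P y z| = m) {d : Y → ℤ} (hd : Rel P d) {y : Y}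
    (hy : y ∈ Φ P) : m * ∑ z ∈ Φ P, C P y z * d z + (V P).card * d y = 0 := by
  rw [← sum_gram hm d hy]
  exact gram_rel (rel_V hd) y

theorem quad (hP : Reduced P) (hm0 : 0 < m) (hm : ∀ y z, Ntr P y z → |gram P y z| = m)
    (hμ : ∀ y z, Ntr P y z → D P y z = μ * C P y z) {d : Y → ℤ} (hd : Rel P d)
    (hne : ∃ y, d y ≠ 0) :
    ((V P).card : ℤ) ^ 2 + μ * m * (V P).card - m ^ 2 * ((Φ P).card - 1) = 0 := by
  obtain ⟨y₀, hy₀, hdy⟩ : ∃ y ∈ Φ P, d y ≠ 0 := by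
    by_contra hcon
    push Not at hcon
    obtain ⟨y, hy⟩ := hne
    exact hy (Rel.eq_zero hd.odd hcon y)
  have h1 := sum_CC hP hm0 hm hμ d hy₀
  have h2 := rel_C hm hd hy₀
  have h3 : m * ∑ t ∈ Φ P, C P y₀ t * ∑ z ∈ Φ P, C P t z * d z
      = - ((V P).card * ∑ t ∈ Φ P, C P y₀ t * d t) := by
    rw [Finset.mul_sum, Finset.mul_sum, ← Finset.sum_neg_distrib]
    refine Finset.sum_congr rfl fun t ht => ?_
    have h4 := rel_C hm hd ht
    linear_combination C P y₀ t * h4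
  rw [h1] at h3
  set S := ((V P).card : ℤ)
  set E := ∑ z ∈ Φ P, C P y₀ z * d z
  have h5 : (S ^ 2 + μ * m * S - m ^ 2 * ((Φ P).card - 1)) * d y₀ = 0 := by
    linear_combination (-m) * h3 + (μ * m + S) * h2
  exact (mul_eq_zero.1 h5).resolve_right hdy

theorem V_eigen (hP : Reduced P) (hm0 : 0 < m) (hm : ∀ y z, Ntr P y z → |gram P y z| = m)
    (hμ : ∀ y z, Ntr P y z → D P y z = μ * C P y z)
    (hq : ((V P).card : ℤ) ^ 2 + μ * m * (V P).card - m ^ 2 * ((Φ P).card - 1) = 0)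
    {f : Y → ℤ} (hf : f ∈ V P) {y : Y} (hy : y ∈ Φ P) :
    m * ∑ z ∈ Φ P, C P y z * f z = ((V P).card + μ * m) * f y := by
  classical
  set S := ((V P).card : ℤ) with hS
  set κ := 2 * S + μ * m with hκ
  let u : Y → ℤ := fun y => ∑ z ∈ Φ P, gram P y z * f z - κ * f y
  have hu : ∀ y ∈ Φ P, u y = m * ∑ z ∈ Φ P, C P y z * f z + (S - κ) * f y := by
    intro y hy
    simp only [u]
    rw [sum_gram hm f hy]; ring
  have hgu : ∀ y ∈ Φ P, ∑ z ∈ Φ P, gram P y z * u z = 0 := by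
    intro y hy
    rw [sum_gram hm u hy]
    have h1 := sum_CC hP hm0 hm hμ f hy
    have h2 : ∑ z ∈ Φ P, C P y z * u z = m * ∑ t ∈ Φ P, C P y t * ∑ z ∈ Φ P, C P t z * f z
        + (S - κ) * ∑ z ∈ Φ P, C P y z * f z := by
      rw [Finset.mul_sum, Finset.mul_sum, ← Finset.sum_add_distrib]
      refine Finset.sum_congr rfl fun z hz => ?_
      rw [hu z hz]; ring
    rw [h2, h1, hu y hy, hκ, ← hS]
    set E := ∑ z ∈ Φ P, C P y z * f z
    linear_combination (- f y) * hq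
  have h3 := rel_of_gram hgu
  have h4 : ∑ y ∈ Φ P, u y * u y = 0 := by
    have h5 : ∑ y ∈ Φ P, u y * u y = ∑ f' ∈ V P, (∑ z ∈ Φ P, f' z * f z) * (∑ z ∈ Φ P, f' z * u z)
        - κ * ∑ y ∈ Φ P, f y * u y := by
      have h6 : ∑ f' ∈ V P, (∑ z ∈ Φ P, f' z * f z) * (∑ z ∈ Φ P, f' z * u z)
          = ∑ y ∈ Φ P, (∑ z ∈ Φ P, gram P y z * f z) * u y := by
        simp only [gram, Finset.mul_sum, Finset.sum_mul]
        have h7 : ∀ y ∈ Φ P, ∑ z ∈ Φ P, ∑ f' ∈ V P, f' y * f' z * f z * u y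
            = ∑ f' ∈ V P, ∑ z ∈ Φ P, f' y * f' z * f z * u y := fun y _ => Finset.sum_comm
        rw [Finset.sum_congr rfl h7, Finset.sum_comm]
        refine Finset.sum_congr rfl fun f' _ => ?_
        refine Finset.sum_congr rfl fun y _ => Finset.sum_congr rfl fun z _ => ?_
        ring
      rw [h6, Finset.mul_sum, ← Finset.sum_sub_distrib]
      refine Finset.sum_congr rfl fun y _ => ?_
      simp only [u]; ring
    rw [h5, h3 f hf, mul_zero, sub_zero]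
    exact Finset.sum_eq_zero fun f' hf' => by rw [h3 f' hf', mul_zero]
  have h8 := (Finset.sum_eq_zero_iff_of_nonneg (fun y _ => mul_self_nonneg (u y))).1 h4 y hy
  have h9 := mul_self_eq_zero.1 h8
  rw [hu y hy] at h9
  rw [hκ] at h9
  linear_combination h9

/-- The two eigenvalues. -/
theorem exists_eigen (hP : Reduced P) (hm0 : 0 < m) (hm : ∀ y z, Ntr P y z → |gram P y z| = m)
    (hμ : ∀ y z, Ntr P y z → D P y z = μ * C P y z) {d : Y → ℤ} (hd : Rel P d)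
    (hne : ∃ y, d y ≠ 0) : ∃ ρ ρ' : ℤ, 0 < ρ ∧ 0 ≤ ρ' ∧ ρ * ρ' = (Φ P).card - 1 ∧ μ = ρ' - ρ ∧
      ((V P).card : ℤ) = m * ρ ∧
      (∀ f ∈ V P, ∀ y ∈ Φ P, ∑ z ∈ Φ P, C P y z * f z = ρ' * f y) ∧
      (∀ e, Rel P e → ∀ y ∈ Φ P, ∑ z ∈ Φ P, C P y z * e z = - ρ * e y) := by
  have hq := quad hP hm0 hm hμ hd hne
  obtain ⟨y₀, hy₀, -⟩ : ∃ y ∈ Φ P, d y ≠ 0 := by
    by_contra hcon
    push Not at hcon
    obtain ⟨y, hy⟩ := hne
    exact hy (Rel.eq_zero hd.odd hcon y)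
  have h1 : (fun y => sg P ((1 : Γ) • y)) ∈ V P := mem_V.2 ⟨1, rfl⟩
  have h2 := V_eigen hP hm0 hm hμ hq h1 hy₀
  rw [one_smul, sg_Φ hy₀, mul_one] at h2
  set ρ' := ∑ z ∈ Φ P, C P y₀ z * sg P ((1 : Γ) • z) with hρ'
  have hS : ((V P).card : ℤ) = m * (ρ' - μ) := by linear_combination -h2
  have hSpos : 0 < ((V P).card : ℤ) := by exact_mod_cast V_nonempty
  have hρ : 0 < ρ' - μ := by
    rw [hS] at hSpos
    exact (mul_pos_iff_of_pos_left hm0).1 hSpos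
  have hprod : (ρ' - μ) * ρ' = (Φ P).card - 1 := by
    rw [hS] at hq
    have h3 : m ^ 2 * ((ρ' - μ) * ρ' - ((Φ P).card - 1)) = 0 := by linear_combination hq
    rcases mul_eq_zero.1 h3 with h4 | h4
    · exfalso
      have := pow_eq_zero_iff (n := 2) (by norm_num) |>.1 h4
      omega
    · linarith
  have hn : 0 ≤ ((Φ P).card : ℤ) - 1 := by
    have : 1 ≤ (Φ P).card := Finset.card_pos.2 ⟨y₀, hy₀⟩
    omega
  refine ⟨ρ' - μ, ρ', hρ, ?_, hprod, by ring, hS, ?_, ?_⟩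
  · by_contra hneg
    push Not at hneg
    have : (ρ' - μ) * ρ' < 0 := mul_neg_of_pos_of_neg hρ hneg
    omega
  · intro f hf y hy
    have h3 := V_eigen hP hm0 hm hμ hq hf hy
    have h4 : m * (∑ z ∈ Φ P, C P y z * f z - ρ' * f y) = 0 := by
      rw [hS] at h3
      linear_combination h3
    rcases mul_eq_zero.1 h4 with h5 | h5
    · omega
    · linarith
  · intro e he y hy
    have h3 := rel_C hm he hy
    rw [hS] at h3
    have h4 : m * (∑ z ∈ Φ P, C P y z * e z - (-(ρ' - μ)) * e y) = 0 := by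
      linear_combination h3
    rcases mul_eq_zero.1 h4 with h5 | h5
    · omega
    · linarith

end Pool.Agent.H62R2.CM6
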