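import Pool.Agent.H62R2.CM6.TwoHom2
import Pool.Agent.H62R2.CM6.Final

/-! # Two-homogeneous CM pairs: the theorem -/

set_option linter.unusedSectionVars false

namespace Pool.Agent.H62R2.CM6

variable {Γ Y : Type*} [Group Γ] [MulAction Γ Y] [Fintype Y] {P : CMPair Γ Y} {m : ℤ}

theorem sum_parity {S : Finset Y} {f : Y → ℤ} (hf : ∀ x ∈ S, f x = 1 ∨ f x = -1) :
    ∃ k : ℤ, ∑ x ∈ S, f x = S.card - 2 * k := by
  classical
  refine ⟨∑ x ∈ S, (if f x = 1 then 0 else 1), ?_⟩
  have h : (S.card : ℤ) = ∑ x ∈ S, 1 := by simp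
  rw [h, Finset.mul_sum, ← Finset.sum_sub_distrib]
  refine Finset.sum_congr rfl fun x hx => ?_
  rcases hf x hx with h1 | h1
  · rw [if_pos h1, h1]; ring
  · rw [if_neg (by rw [h1]; norm_num), h1]; ring

theorem sum_C_erase (F : Y → ℤ) {y : Y} (hy : y ∈ Φ P) [DecidableEq Y] :
    ∑ z ∈ Φ P, C P y z * F z = ∑ z ∈ (Φ P).erase y, C P y z * F z := by
  rw [← Finset.add_sum_erase _ _ hy, C_self]; ring

theorem one_mem_V : (fun y => sg P ((1 : Γ) • y)) ∈ V P := mem_V.2 ⟨1, rfl⟩

/-- The second eigenvalue has the parity of `n - 1`. -/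
theorem rho_parity (hm0 : 0 < m) (hm : ∀ y z, Ntr P y z → |gram P y z| = m)
    {ρ' : ℤ} (hV : ∀ f ∈ V P, ∀ y ∈ Φ P, ∑ z ∈ Φ P, C P y z * f z = ρ' * f y)
    (hne : (Φ P).Nonempty) : ∃ k : ℤ, ρ' = ((Φ P).card : ℤ) - 1 - 2 * k := by
  classical
  obtain ⟨y, hy⟩ := hne
  have h1 := hV _ one_mem_V y hy
  rw [sum_C_erase _ hy, one_smul, sg_Φ hy, mul_one] at h1
  obtain ⟨k, hk⟩ := sum_parity (S := (Φ P).erase y) (f := fun z => C P y z * sg P ((1 : Γ) • z)) (by
    intro z hz
    rw [one_smul, sg_Φ (Finset.mem_of_mem_erase hz), mul_one]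
    exact C_cases hm0 hm (ntr_of_mem hy (Finset.mem_of_mem_erase hz) (Finset.ne_of_mem_erase hz)))
  refine ⟨k, ?_⟩
  rw [← h1, hk, Finset.card_erase_of_mem hy]
  have : 1 ≤ (Φ P).card := Finset.card_pos.2 ⟨y, hy⟩
  push_cast [this]
  ring

theorem odd_case (hP : Reduced P) (hm0 : 0 < m) (hm : ∀ y z, Ntr P y z → |gram P y z| = m)
    {ρ' : ℤ} (hV : ∀ f ∈ V P, ∀ y ∈ Φ P, ∑ z ∈ Φ P, C P y z * f z = ρ' * f y)
    (hn : 1 < (Φ P).card) (hodd : Odd (Φ P).card) : False := by
  classical
  obtain ⟨x, hx, y, hy, hxy⟩ := Finset.one_lt_card.1 hn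
  obtain ⟨k, hk⟩ := rho_parity hm0 hm hV ⟨x, hx⟩
  obtain ⟨j, hj⟩ := hodd
  have hρ : ∃ l : ℤ, ρ' = 2 * l := ⟨j - k, by rw [hk, hj]; push_cast; ring⟩
  obtain ⟨l, hl⟩ := hρ
  obtain ⟨g, hg⟩ := exists_sep hP hxy
  let f : Y → ℤ := fun y => sg P (g • y)
  have hf : f ∈ V P := mem_V.2 ⟨g, rfl⟩
  let a : Y → ℤ := fun z => (1 - f z) / 2
  have ha : ∀ z, 2 * a z = 1 - f z := by
    intro z
    rcases V_cases hf z with h | h <;> simp only [a] <;> rw [h] <;> norm_num
  have hCa : ∀ w ∈ Φ P, ∑ z ∈ Φ P, C P w z * a z = ρ' * a w := by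
    intro w hw
    have h1 := hV _ hf w hw
    have h2 := hV _ one_mem_V w hw
    have h3 : 2 * ∑ z ∈ Φ P, C P w z * a z
        = ∑ z ∈ Φ P, C P w z * sg P ((1 : Γ) • z) - ∑ z ∈ Φ P, C P w z * f z := by
      rw [Finset.mul_sum, ← Finset.sum_sub_distrib]
      refine Finset.sum_congr rfl fun z hz => ?_
      rw [one_smul, sg_Φ hz]
      linear_combination C P w z * ha z
    rw [h1, h2, one_smul, sg_Φ hw] at h3
    have h4 := ha w
    have h5 : 2 * (∑ z ∈ Φ P, C P w z * a z - ρ' * a w) = 0 := by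
      linear_combination h3 - ρ' * h4
    omega
  have hpar : ∀ w ∈ Φ P, ∃ c : ℤ, a w = ∑ z ∈ Φ P, a z + 2 * c := by
    intro w hw
    have h1 := hCa w hw
    rw [sum_C_erase _ hw] at h1
    have h2 : (2 : ℤ) ∣ ∑ z ∈ (Φ P).erase w, (C P w z - 1) * a z := by
      apply Finset.dvd_sum
      intro z hz
      rcases C_cases hm0 hm (ntr_of_mem hw (Finset.mem_of_mem_erase hz) (Finset.ne_of_mem_erase hz))
        with h | h <;> rw [h]
      · simp
      · exact ⟨- a z, by ring⟩
    obtain ⟨c, hc⟩ := h2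
    have h3 : ∑ z ∈ (Φ P).erase w, (C P w z - 1) * a z
        = ∑ z ∈ (Φ P).erase w, C P w z * a z - ∑ z ∈ (Φ P).erase w, a z := by
      rw [← Finset.sum_sub_distrib]
      exact Finset.sum_congr rfl fun z _ => by ring
    have h4 : ∑ z ∈ Φ P, a z = a w + ∑ z ∈ (Φ P).erase w, a z := by
      rw [Finset.add_sum_erase _ _ hw]
    refine ⟨c - l * a w, ?_⟩
    rw [h4]
    rw [h3, h1, hl] at hc
    linear_combination hc
  obtain ⟨c1, hc1⟩ := hpar x hx
  obtain ⟨c2, hc2⟩ := hpar y hy
  have hax := ha x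
  have hay := ha y
  have hfx : f x = - f y := hg
  rcases V_cases hf y with h | h <;> rw [h] at hfx hay <;> rw [hfx] at hax <;> omega

/-- If the first eigenvalue is one, all sign functions agree up to sign. -/
theorem one_case (hP : Reduced P) (hm0 : 0 < m) (hm : ∀ y z, Ntr P y z → |gram P y z| = m)
    {ρ' : ℤ} (hV : ∀ f ∈ V P, ∀ y ∈ Φ P, ∑ z ∈ Φ P, C P y z * f z = ρ' * f y)
    (hn : 1 < (Φ P).card) (hρ : ρ' = (Φ P).card - 1) : False := by
  classical
  obtain ⟨x, hx, y, hy, hxy⟩ := Finset.one_lt_card.1 hn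
  have hcard : (((Φ P).erase x).card : ℤ) = (Φ P).card - 1 := by
    rw [Finset.card_erase_of_mem hx]
    push_cast [show 1 ≤ (Φ P).card by omega]; ring
  have hkey : ∀ f ∈ V P, ∀ z ∈ (Φ P).erase x, C P x z * f z * f x = 1 := by
    intro f hf
    have h1 := hV f hf x hx
    rw [sum_C_erase _ hx] at h1
    have h2 : ∑ z ∈ (Φ P).erase x, (1 - C P x z * f z * f x) = 0 := by
      rw [Finset.sum_sub_distrib, ← Finset.sum_mul, h1]
      have h3 : f x * f x = 1 := by rcases V_cases hf x with h | h <;> rw [h] <;> norm_num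
      simp only [Finset.sum_const, nsmul_eq_mul, mul_one]
      rw [hcard, hρ]
      linear_combination (-(((Φ P).card : ℤ) - 1)) * h3
    have h4 := (Finset.sum_eq_zero_iff_of_nonneg (by
      intro z hz
      rcases C_cases hm0 hm (ntr_of_mem hx (Finset.mem_of_mem_erase hz) (Finset.ne_of_mem_erase hz))
        with h | h <;> rcases V_cases hf z with h' | h' <;> rcases V_cases hf x with h'' | h'' <;>
        rw [h, h', h''] <;> norm_num)).1 h2
    intro z hz
    have := h4 z hz
    linarith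
  obtain ⟨g, hg⟩ := exists_sep hP hxy
  have hye : y ∈ (Φ P).erase x := Finset.mem_erase.2 ⟨hxy.symm, hy⟩
  have h1 := hkey _ one_mem_V y hye
  have h2 := hkey _ (mem_V.2 ⟨g, rfl⟩) y hye
  rw [one_smul, one_smul, sg_Φ hx, sg_Φ hy, mul_one, mul_one] at h1
  rw [h1, one_mul] at h2
  rw [hg] at h2
  rcases sg_cases P (g • y) with h | h <;> rw [h] at h2 <;> norm_num at h2

/-- If the second eigenvalue is one, all relations are multiples of one with values `1, -1`. -/
theorem weil_case (hm0 : 0 < m) (hm : ∀ y z, Ntr P y z → |gram P y z| = m)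
    {ρ : ℤ} (hρ : ρ = (Φ P).card - 1) (hn : 1 < (Φ P).card)
    (hR : ∀ e, Rel P e → ∀ y ∈ Φ P, ∑ z ∈ Φ P, C P y z * e z = - ρ * e y)
    {d : Y → ℤ} (hd : Rel P d) (hne : ∃ y, d y ≠ 0) :
    ∃ e : Y → ℤ, Rel P e ∧ (∀ y, e y = 1 ∨ e y = -1) ∧ ∀ d', Rel P d' → ∃ k : ℤ, ∀ y, d' y = k * e y := by
  classical
  -- structure of a relation
  have hstr : ∀ d : Y → ℤ, Rel P d → ∃ N : ℤ, 0 ≤ N ∧ (∀ y, |d y| = N) ∧
      ∀ y ∈ Φ P, ∀ z ∈ Φ P, z ≠ y → C P y z * d z = - d y := by
    intro d hd
    have hΦne : (Φ P).Nonempty := Finset.card_pos.1 (by omega)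
    obtain ⟨y₀, hy₀, hmax⟩ := Finset.exists_max_image (Φ P) (fun y => |d y|) hΦne
    have hstep : ∀ y ∈ Φ P, |d y| = |d y₀| → ∀ z ∈ Φ P, z ≠ y → C P y z * d z = - d y := by
      intro y hy hyN
      have h1 := hR d hd y hy
      rw [sum_C_erase _ hy] at h1
      have hcard : (((Φ P).erase y).card : ℤ) = (Φ P).card - 1 := by
        rw [Finset.card_erase_of_mem hy]
        push_cast [show 1 ≤ (Φ P).card by omega]; ring
      have h2 : ∑ z ∈ (Φ P).erase y, (|d y₀| * |d y₀| + C P y z * d z * d y) = 0 := by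
        have e2 : ∑ z ∈ (Φ P).erase y, C P y z * d z * d y
            = (∑ z ∈ (Φ P).erase y, C P y z * d z) * d y := by rw [Finset.sum_mul]
        rw [Finset.sum_add_distrib, e2, h1, Finset.sum_const, nsmul_eq_mul, hcard, hρ,
          ← hyN, abs_mul_abs_self]
        ring
      have h3 := (Finset.sum_eq_zero_iff_of_nonneg (by
        intro z hz
        have hzΦ := Finset.mem_of_mem_erase hz
        have h4 := hmax z hzΦ
        have h5 : |C P y z * d z * d y| ≤ |d y₀| * |d y₀| := by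
          rw [abs_mul, abs_mul, hyN]
          have h6 : |C P y z| = 1 := by
            rcases C_cases hm0 hm (ntr_of_mem hy hzΦ (Finset.ne_of_mem_erase hz)) with h | h <;>
              rw [h] <;> norm_num
          rw [h6, one_mul]
          exact mul_le_mul_of_nonneg_right h4 (abs_nonneg _)
        have h7 := neg_abs_le (C P y z * d z * d y)
        linarith)).1 h2
      intro z hz hzy
      have hze : z ∈ (Φ P).erase y := Finset.mem_erase.2 ⟨hzy, hz⟩
      have h4 := h3 z hze
      have h5 := hmax z hz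
      have hC : C P y z = 1 ∨ C P y z = -1 := C_cases hm0 hm (ntr_of_mem hy hz hzy)
      rw [← hyN, abs_mul_abs_self] at h4
      by_cases hdy : d y = 0
      · have : |d z| ≤ 0 := by rw [← hyN, hdy, abs_zero] at h5; exact h5
        have : d z = 0 := abs_eq_zero.1 (le_antisymm this (abs_nonneg _))
        rw [this, hdy]; ring
      · have h6 : (C P y z * d z + d y) * d y = 0 := by linear_combination h4
        rcases mul_eq_zero.1 h6 with h7 | h7
        · linarith
        · exact absurd h7 hdy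
    refine ⟨|d y₀|, abs_nonneg _, ?_, ?_⟩
    · have hΦabs : ∀ y ∈ Φ P, |d y| = |d y₀| := by
        intro y hy
        by_cases h : y = y₀
        · rw [h]
        · have h1 := hstep y₀ hy₀ rfl y hy h
          have hC : C P y₀ y = 1 ∨ C P y₀ y = -1 := C_cases hm0 hm (ntr_of_mem hy₀ hy h)
          rcases hC with h2 | h2 <;> rw [h2] at h1
          · have : d y = - d y₀ := by linarith
            rw [this, abs_neg]
          · have : d y = d y₀ := by linarith
            rw [this]
      intro y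
      rcases mem_or (P := P) y with hy | hy
      · exact hΦabs y hy
      · have := hΦabs _ hy
        rw [hd.odd, abs_neg] at this
        exact this
    · intro y hy
      have hyN : |d y| = |d y₀| := by
        by_cases h : y = y₀
        · rw [h]
        · have h1 := hstep y₀ hy₀ rfl y hy h
          have hC : C P y₀ y = 1 ∨ C P y₀ y = -1 := C_cases hm0 hm (ntr_of_mem hy₀ hy h)
          rcases hC with h2 | h2 <;> rw [h2] at h1
          · have : d y = - d y₀ := by linarith
            rw [this, abs_neg]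
          · have : d y = d y₀ := by linarith
            rw [this]
      exact hstep y hy hyN
  obtain ⟨N, hN0, hN1, hN2⟩ := hstr d hd
  obtain ⟨y₁, hy₁⟩ := hne
  have hNpos : 0 < N := by rw [← hN1 y₁]; exact abs_pos.2 hy₁
  have hsgn : ∀ y, d y = N * (d y).sign := by
    intro y
    rw [← hN1 y, mul_comm, Int.sign_mul_abs]
  have hdne : ∀ y, d y ≠ 0 := by
    intro y h
    have := hN1 y
    rw [h, abs_zero] at this
    omega
  refine ⟨fun y => (d y).sign, ?_, fun y => sign_cases (hdne y), ?_⟩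
  · constructor
    · intro y
      show (d (P.conj • y)).sign = - (d y).sign
      rw [hd.odd, Int.sign_neg]
    · intro g
      have h1 := hd.bal g
      have h2 : ∑ y, d y * sg P (g • y) = N * ∑ y, (d y).sign * sg P (g • y) := by
        rw [Finset.mul_sum]
        refine Finset.sum_congr rfl fun y _ => ?_
        have := hsgn y
        calc d y * sg P (g • y) = (N * (d y).sign) * sg P (g • y) := by rw [← this]
          _ = _ := by ring
      rw [h2] at h1
      exact (mul_eq_zero.1 h1).resolve_left (by omega)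
  · intro d' hd'
    obtain ⟨N', hN0', hN1', hN2'⟩ := hstr d' hd'
    obtain ⟨y₀, hy₀⟩ : (Φ P).Nonempty := Finset.card_pos.1 (by omega)
    refine ⟨d' y₀ * (d y₀).sign, ?_⟩
    have hΦ' : ∀ y ∈ Φ P, d' y * d y₀ = d' y₀ * d y := by
      intro y hy
      by_cases h : y = y₀
      · rw [h]
      · have h1 := hN2 y₀ hy₀ y hy h
        have h2 := hN2' y₀ hy₀ y hy h
        rcases C_cases hm0 hm (ntr_of_mem hy₀ hy h) with h3 | h3 <;> rw [h3] at h1 h2
        · linear_combination (-d y) * h2 + d' y * h1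
        · linear_combination (-d y) * h2 + d' y * h1
    have hz : ∀ y, d' y - d' y₀ * (d y₀).sign * (d y).sign = 0 := by
      apply Rel.eq_zero (P := P)
      · intro y
        rw [hd'.odd, hd.odd, Int.sign_neg]; ring
      · intro y hy
        have h1 := hΦ' y hy
        have hs : (d y₀).sign * (d y₀).sign = 1 := by
          rcases sign_cases (hdne y₀) with h | h <;> rw [h] <;> norm_num
        rw [hsgn y₀, hsgn y] at h1
        have h2 : N * (d' y * (d y₀).sign - d' y₀ * (d y).sign) = 0 := by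
          linear_combination h1
        rcases mul_eq_zero.1 h2 with h3 | h3
        · omega
        · linear_combination (d y₀).sign * h3 - d' y * hs
    intro y
    have := hz y
    linarith

end Pool.Agent.H62R2.CM6
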