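import Pool.Agent.H62R2.CM6.TwoHom3

/-! # Integrality of the multiplicity, and the final theorem -/

set_option linter.unusedSectionVars false

namespace Pool.Agent.H62R2.CM6

variable {Γ Y : Type*} [Group Γ] [MulAction Γ Y] [Fintype Y] {P : CMPair Γ Y} {m : ℤ}

theorem divisibility (hP : Reduced P) (hm0 : 0 < m) (hm : ∀ y z, Ntr P y z → |gram P y z| = m)
    {μ ρ ρ' : ℤ} (hμ : ∀ y z, Ntr P y z → D P y z = μ * C P y z) (hμ' : μ = ρ' - ρ)
    (hρ : 0 < ρ) (hρ' : 0 ≤ ρ') (hprod : ρ * ρ' = (Φ P).card - 1) :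
    (ρ + ρ') ∣ (Φ P).card * ρ := by
  classical
  let Cm : Matrix (Φ P) (Φ P) ℚ := Matrix.of fun y z => (C P (y : Y) (z : Y) : ℚ)
  have hCC : Cm * Cm = (((Φ P).card : ℚ) - 1) • (1 : Matrix (Φ P) (Φ P) ℚ) + (μ : ℚ) • Cm := by
    ext y z
    rw [Matrix.mul_apply, Matrix.add_apply, Matrix.smul_apply, Matrix.smul_apply]
    have h1 : ∑ t : Φ P, Cm y t * Cm t z = (D P (y : Y) (z : Y) : ℚ) := by
      simp only [Cm, Matrix.of_apply, D]
      push_cast
      exact Finset.sum_coe_sort (Φ P) (fun t => (C P (y : Y) t : ℚ) * (C P t (z : Y) : ℚ))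
    rw [h1]
    by_cases h : y = z
    · subst h
      rw [D_self hP hm0 hm y.2]
      simp only [Cm, Matrix.of_apply, Matrix.one_apply_eq, C_self]
      push_cast; simp
    · have hyz : (z : Y) ≠ y := fun h2 => h (Subtype.ext h2.symm)
      rw [hμ _ _ (ntr_of_mem y.2 z.2 hyz)]
      simp only [Cm, Matrix.of_apply, Matrix.one_apply_ne h]
      push_cast; simp
  have hσ : (0 : ℚ) < (ρ : ℚ) + ρ' := by
    have : (0 : ℤ) < ρ + ρ' := by omega
    exact_mod_cast this
  let A : Matrix (Φ P) (Φ P) ℚ := (1 / ((ρ : ℚ) + ρ')) • (Cm + (ρ : ℚ) • (1 : Matrix (Φ P) (Φ P) ℚ))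
  have hprod' : (ρ : ℚ) * ρ' = ((Φ P).card : ℚ) - 1 := by exact_mod_cast hprod
  have hμq : (μ : ℚ) = ρ' - ρ := by rw [hμ']; push_cast; ring
  have hA : A * A = A := by
    have h1 : (Cm + (ρ : ℚ) • (1 : Matrix (Φ P) (Φ P) ℚ)) * (Cm + (ρ : ℚ) • (1 : Matrix (Φ P) (Φ P) ℚ))
        = ((ρ : ℚ) + ρ') • (Cm + (ρ : ℚ) • (1 : Matrix (Φ P) (Φ P) ℚ)) := by
      rw [mul_add, add_mul, add_mul, hCC, hμq, ← hprod']
      simp only [Matrix.smul_mul, Matrix.mul_smul, Matrix.one_mul, Matrix.mul_one]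
      module
    simp only [A, Matrix.smul_mul, Matrix.mul_smul]
    rw [h1, smul_smul, smul_smul]
    congr 1
    field_simp
  have hidem : IsIdempotentElem (Matrix.toLin' A) := by
    show Matrix.toLin' A * Matrix.toLin' A = Matrix.toLin' A
    rw [Module.End.mul_eq_comp, ← Matrix.toLin'_mul, hA]
  have htr := (LinearMap.IsIdempotentElem.isProj_range _ hidem).trace
  rw [Matrix.trace_toLin'_eq] at htr
  have htrA : Matrix.trace A = (1 / ((ρ : ℚ) + ρ')) * (ρ * (Φ P).card) := by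
    simp only [A]
    rw [Matrix.trace_smul, Matrix.trace_add, Matrix.trace_smul, Matrix.trace_one, Fintype.card_coe]
    have h1 : Matrix.trace Cm = 0 := by
      simp only [Matrix.trace, Matrix.diag, Cm, Matrix.of_apply, C_self]
      simp
    rw [h1]
    simp only [smul_eq_mul]; ring
  rw [htrA] at htr
  refine ⟨Module.finrank ℚ (LinearMap.range (Matrix.toLin' A)), ?_⟩
  have h2 : (ρ : ℚ) * (Φ P).card = (ρ + ρ') * Module.finrank ℚ (LinearMap.range (Matrix.toLin' A)) := by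
    rw [← htr]; field_simp
  have h3 : ρ * (Φ P).card = (ρ + ρ') * Module.finrank ℚ (LinearMap.range (Matrix.toLin' A)) := by
    exact_mod_cast h2
  rw [mul_comm]; exact h3

/-- The sign of a triple. -/
noncomputable def tau (P : CMPair Γ Y) (y : Fin 3 → Y) : ℤ := C P (y 0) (y 1) * C P (y 1) (y 2) * C P (y 0) (y 2)

theorem tau_perm (hP : Reduced P) (y : Fin 3 → Y) (σ : Equiv.Perm (Fin 3)) :
    tau P (fun i => y (σ i)) = tau P y := by
  have h := C_comm hP (y 0) (y 1)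
  have h' := C_comm hP (y 1) (y 2)
  have h'' := C_comm hP (y 0) (y 2)
  have hσ : (σ 0 = 0 ∧ σ 1 = 1 ∧ σ 2 = 2) ∨ (σ 0 = 0 ∧ σ 1 = 2 ∧ σ 2 = 1) ∨
      (σ 0 = 1 ∧ σ 1 = 0 ∧ σ 2 = 2) ∨ (σ 0 = 1 ∧ σ 1 = 2 ∧ σ 2 = 0) ∨
      (σ 0 = 2 ∧ σ 1 = 0 ∧ σ 2 = 1) ∨ (σ 0 = 2 ∧ σ 1 = 1 ∧ σ 2 = 0) := by
    revert σ; decide
  unfold tau
  rcases hσ with ⟨h1, h2, h3⟩ | ⟨h1, h2, h3⟩ | ⟨h1, h2, h3⟩ | ⟨h1, h2, h3⟩ | ⟨h1, h2, h3⟩ | ⟨h1, h2, h3⟩ <;>
    simp only [h1, h2, h3]
  · rw [h']; ring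
  · rw [h]; ring
  · rw [h, h'']; ring
  · rw [h', h'']; ring
  · rw [h, h', h'']; ring

theorem tau_eq (hP : Reduced P) {y z : Fin 3 → Y} {g : Γ}
    (h : ∀ i, g • y i = z i ∨ g • y i = P.conj • z i) : tau P y = tau P z := by
  have h0 : tau P y = tau P (fun i => g • y i) := by
    unfold tau
    rw [C_smul, C_smul, C_smul]
  rw [h0]
  unfold tau
  beta_reduce
  rcases h 0 with h1 | h1 <;> rcases h 1 with h2 | h2 <;> rcases h 2 with h3 | h3 <;>
    rw [h1, h2, h3] <;> simp only [C_conj hP, C_conj' hP] <;> ring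

/-- For a three-homogeneous group one of the eigenvalues is one. -/
theorem three_case (hP : Reduced P) (h3 : ThreeHomogeneous P) (hm0 : 0 < m)
    (hm : ∀ y z, Ntr P y z → |gram P y z| = m) {μ ρ ρ' : ℤ}
    (hμ : ∀ y z, Ntr P y z → D P y z = μ * C P y z) (hμ' : μ = ρ' - ρ)
    (hρ : 0 < ρ) (hρ' : 0 ≤ ρ') (hprod : ρ * ρ' = (Φ P).card - 1) (hn : 1 < (Φ P).card) :
    ρ = 1 ∨ ρ' = 1 := by
  classical
  obtain ⟨x, hx, y, hy, hxy⟩ := Finset.one_lt_card.1 hn
  -- the sign of the triples is constant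
  obtain ⟨ε, hε, hconst⟩ : ∃ ε : ℤ, (ε = 1 ∨ ε = -1) ∧ ∀ t ∈ ((Φ P).erase x).erase y,
      C P x t * C P t y = ε * C P x y := by
    have hvalid : ∀ t ∈ ((Φ P).erase x).erase y, ∀ i j : Fin 3, i ≠ j →
        (![x, t, y] : Fin 3 → Y) i ≠ (![x, t, y] : Fin 3 → Y) j ∧
        (![x, t, y] : Fin 3 → Y) i ≠ P.conj • (![x, t, y] : Fin 3 → Y) j := by
      intro t ht
      have htΦ := Finset.mem_of_mem_erase (Finset.mem_of_mem_erase ht)
      have hty := Finset.ne_of_mem_erase ht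
      have htx := Finset.ne_of_mem_erase (Finset.mem_of_mem_erase ht)
      have k1 := ntr_of_mem hx htΦ htx
      have k2 := ntr_of_mem hx hy hxy.symm
      have k3 := ntr_of_mem htΦ hy (Ne.symm hty)
      have k1' := k1.symm hP
      have k2' := k2.symm hP
      have k3' := k3.symm hP
      intro i j hij
      fin_cases i <;> fin_cases j <;> simp only [Fin.zero_eta, Fin.mk_one, Fin.reduceFinMk,
        Matrix.cons_val_zero, Matrix.cons_val_one, Matrix.cons_val] <;> first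
        | exact absurd rfl hij
        | exact k1
        | exact k2
        | exact k3
        | exact k1'
        | exact k2'
        | exact k3'
    have hcases : ∀ t ∈ ((Φ P).erase x).erase y, (C P x t = 1 ∨ C P x t = -1) ∧
        (C P t y = 1 ∨ C P t y = -1) ∧ (C P x y = 1 ∨ C P x y = -1) := by
      intro t ht
      have htΦ := Finset.mem_of_mem_erase (Finset.mem_of_mem_erase ht)
      have hty := Finset.ne_of_mem_erase ht
      have htx := Finset.ne_of_mem_erase (Finset.mem_of_mem_erase ht)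
      exact ⟨C_cases hm0 hm (ntr_of_mem hx htΦ htx), C_cases hm0 hm (ntr_of_mem htΦ hy (Ne.symm hty)),
        C_cases hm0 hm (ntr_of_mem hx hy hxy.symm)⟩
    by_cases hempty : (((Φ P).erase x).erase y).Nonempty
    · obtain ⟨t₀, ht₀⟩ := hempty
      have htau : ∀ t, tau P ![x, t, y] = C P x t * C P t y * C P x y := fun t => rfl
      refine ⟨tau P ![x, t₀, y], ?_, ?_⟩
      · rw [htau]
        obtain ⟨h1 | h1, h2 | h2, h3 | h3⟩ := hcases t₀ ht₀ <;> rw [h1, h2, h3] <;> norm_num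
      · intro t ht
        obtain ⟨g, σ, hg⟩ := h3 ![x, t, y] ![x, t₀, y] (hvalid t ht) (hvalid t₀ ht₀)
        have h4 : tau P ![x, t, y] = tau P ![x, t₀, y] := by
          rw [tau_eq hP (z := fun i => (![x, t₀, y] : Fin 3 → Y) (σ i)) hg, tau_perm hP]
        rw [← h4, htau]
        obtain ⟨h1 | h1, h2 | h2, h3 | h3⟩ := hcases t ht <;> rw [h1, h2, h3] <;> norm_num
    · refine ⟨1, Or.inl rfl, fun t ht => absurd ⟨t, ht⟩ hempty⟩
  have hye : y ∈ (Φ P).erase x := Finset.mem_erase.2 ⟨hxy.symm, hy⟩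
  have hD : D P x y = ((Φ P).card - 2) * (ε * C P x y) := by
    unfold D
    rw [← Finset.add_sum_erase _ _ hx, ← Finset.add_sum_erase _ _ hye, C_self, C_self,
      Finset.sum_congr rfl hconst, Finset.sum_const, Finset.card_erase_of_mem hye,
      Finset.card_erase_of_mem hx]
    have h5 : (((Φ P).card - 1 - 1 : ℕ) : ℤ) = (Φ P).card - 2 := by omega
    rw [nsmul_eq_mul, h5]; ring
  rw [hμ _ _ (ntr_of_mem hx hy hxy.symm)] at hD
  have hCxy : C P x y = 1 ∨ C P x y = -1 := C_cases hm0 hm (ntr_of_mem hx hy hxy.symm)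
  have hμε : μ = ((Φ P).card - 2) * ε := by
    rcases hCxy with h | h <;> rw [h] at hD <;> linarith
  rcases hε with rfl | rfl
  · left
    have h6 : (ρ - 1) * (ρ + ρ * ρ') = 0 := by
      have : ρ' = ρ + ρ * ρ' - 1 := by
        rw [hprod]; linarith
      have h7 : ρ * ρ' = ρ * (ρ + ρ * ρ' - 1) := by rw [← this]
      linear_combination -h7
    rcases mul_eq_zero.1 h6 with h7 | h7
    · omega
    · exfalso
      have : 0 ≤ ρ * ρ' := mul_nonneg hρ.le hρ'
      omega
  · right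
    have h6 : (ρ' - 1) * (ρ' + ρ * ρ') = 0 := by
      have : ρ = ρ' + ρ * ρ' - 1 := by
        rw [hprod]; linarith
      have h7 : ρ * ρ' = (ρ' + ρ * ρ' - 1) * ρ' := by rw [← this]
      linear_combination -h7
    rcases mul_eq_zero.1 h6 with h7 | h7
    · omega
    · exfalso
      have h8 : 0 ≤ ρ * ρ' := mul_nonneg hρ.le hρ'
      have h9 : (1 : ℤ) < (Φ P).card := by exact_mod_cast hn
      omega

/-- Hodge weights of two-homogeneous CM pairs. -/
theorem twoHom_classification (hP : Reduced P) (hT : TwoHomogeneous P) {n : ℕ}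
    (hn : Fintype.card Y = 2 * n) :
    (∀ c, IsHodge P c → IsPairs P c) ∨
    (Even n ∧ ∃ w, IsWeil P w ∧ size w = n ∧ (∀ y, w y + bar P w y = 1) ∧
      ∀ c, IsHodge P c → ∃ (k : ℕ) (p : Y → ℕ), IsPairs P p ∧
        (c = p + k • w ∨ c = p + k • bar P w)) ∨
    (¬ ThreeHomogeneous P ∧
      ∃ a b : ℕ, 3 ≤ a ∧ 3 ≤ b ∧ Odd a ∧ Odd b ∧ n = a * b + 1 ∧ (a + b) ∣ n * a) := by
  classical
  have hn' : (Φ P).card = n := by
    have := card_eq (P := P)
    omega
  by_cases h0 : ∀ d, Rel P d → ∀ y, d y = 0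
  · left
    intro c hc
    have h1 := h0 _ (rel_of_isHodge hP hc)
    funext y
    have h2 := h1 y
    omega
  right
  push Not at h0
  obtain ⟨d, hd, hne⟩ := h0
  obtain ⟨m, hm0, hm⟩ := exists_m hP hT
  obtain ⟨y₀, hy₀, hdy⟩ : ∃ y ∈ Φ P, d y ≠ 0 := by
    by_contra hcon
    push Not at hcon
    obtain ⟨y, hy⟩ := hne
    exact hy (Rel.eq_zero hd.odd hcon y)
  -- the off-diagonal entries are not zero
  have hmpos : 0 < m ∧ 1 < (Φ P).card := by
    by_contra hcon
    have h1 := gram_rel (rel_V hd) y₀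
    rw [← Finset.add_sum_erase _ _ hy₀, gram_self] at h1
    have h2 : ∑ z ∈ (Φ P).erase y₀, gram P y₀ z * d z = 0 := by
      apply Finset.sum_eq_zero
      intro z hz
      have hz1 := Finset.mem_of_mem_erase hz
      have hz2 := Finset.ne_of_mem_erase hz
      have h3 := hm y₀ z (ntr_of_mem hy₀ hz1 hz2)
      have hc : 1 < (Φ P).card := Finset.one_lt_card.2 ⟨z, hz1, y₀, hy₀, hz2⟩
      have hm00 : m = 0 := by
        by_contra hne0
        exact hcon ⟨lt_of_le_of_ne hm0 (Ne.symm hne0), hc⟩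
      rw [hm00] at h3
      rw [abs_eq_zero.1 h3, zero_mul]
    rw [h2, add_zero] at h1
    have hpos : 0 < ((V P).card : ℤ) := by exact_mod_cast V_nonempty
    rcases mul_eq_zero.1 h1 with h4 | h4
    · omega
    · exact hdy h4
  obtain ⟨hmp, hcard⟩ := hmpos
  obtain ⟨μ, hμ⟩ := exists_mu hP hT hmp hm
  obtain ⟨ρ, ρ', hρ, hρ', hprod, hμ', -, hV, hR⟩ := exists_eigen hP hmp hm hμ hd hne
  have heven : Even n := by
    by_contra hodd
    rw [Nat.not_even_iff_odd, ← hn'] at hodd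
    exact odd_case hP hmp hm hV hcard hodd
  by_cases h1 : ρ = 1
  · exfalso
    rw [h1, one_mul] at hprod
    exact one_case hP hmp hm hV hcard hprod
  by_cases h2 : ρ' = 1
  · left
    rw [h2, mul_one] at hprod
    obtain ⟨e, he, hval, hgen⟩ := weil_case hmp hm hprod hcard hR hd hne
    have he0 : ∃ y, e y ≠ 0 := ⟨y₀, by rcases hval y₀ with h | h <;> rw [h] <;> norm_num⟩
    refine ⟨heven, pos e, pos_isWeil he he0 hgen, ?_, ?_, decompose hP he hgen⟩
    · rw [size_pos he, ← hn']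
      have : ∀ y ∈ Φ P, (e y).natAbs = 1 := by
        intro y _
        rcases hval y with h | h <;> rw [h] <;> rfl
      rw [Finset.sum_congr rfl this]; simp
    · intro y
      simp only [pos, bar]
      rw [he.odd]
      rcases hval y with h | h <;> rw [h] <;> rfl
  · right
    refine ⟨fun h3 => ?_, ?_⟩
    · rcases three_case hP h3 hmp hm hμ hμ' hρ hρ' hprod hcard with h | h
      · exact h1 h
      · exact h2 h
    have hdiv := divisibility hP hmp hm hμ hμ' hρ hρ' hprod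
    have hρpos : 0 < ρ' := by
      rcases hρ'.lt_or_eq with h | h
      · exact h
      · rw [← h, mul_zero] at hprod
        omega
    obtain ⟨a, rfl⟩ := Int.eq_ofNat_of_zero_le hρ.le
    obtain ⟨b, rfl⟩ := Int.eq_ofNat_of_zero_le hρ'
    have hnab : n = a * b + 1 := by
      rw [hn'] at hprod
      zify
      linarith
    have hodd : Odd (a * b) := by
      rw [hnab] at heven
      rcases Nat.even_or_odd (a * b) with h | h
      · exfalso
        rw [Nat.even_add_one] at heven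
        exact heven h
      · exact h
    obtain ⟨ha, hb⟩ := Nat.odd_mul.1 hodd
    refine ⟨a, b, ?_, ?_, ha, hb, hnab, ?_⟩
    · obtain ⟨j, hj⟩ := ha
      have : a ≠ 1 := fun h => h1 (by rw [h]; rfl)
      omega
    · obtain ⟨j, hj⟩ := hb
      have : b ≠ 1 := fun h => h2 (by rw [h]; rfl)
      omega
    · rw [hn'] at hdiv
      exact_mod_cast hdiv

end Pool.Agent.H62R2.CM6
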