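import Pool.Agent.H62R2.CM6.Defs

/-! # Two-homogeneous CM pairs -/

namespace Pool.Agent.H62R2.CM6

variable {Γ Y : Type*} [Group Γ] [MulAction Γ Y]

/-- The group acts transitively on the unordered pairs of distinct pairs `{y, conj • y}`
(for a CM field: on the unordered pairs of distinct embeddings of its maximal totally real
subfield). -/
def TwoHomogeneous (P : CMPair Γ Y) : Prop :=
  ∀ y z y' z' : Y, z ≠ y → z ≠ P.conj • y → z' ≠ y' → z' ≠ P.conj • y' → ∃ g : Γ,
    ((g • y = y' ∨ g • y = P.conj • y') ∧ (g • z = z' ∨ g • z = P.conj • z')) ∨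
    ((g • y = z' ∨ g • y = P.conj • z') ∧ (g • z = y' ∨ g • z = P.conj • y'))

/-- The group acts transitively on the unordered triples of distinct pairs `{y, conj • y}`. -/
def ThreeHomogeneous (P : CMPair Γ Y) : Prop :=
  ∀ y z : Fin 3 → Y, (∀ i j, i ≠ j → y i ≠ y j ∧ y i ≠ P.conj • y j) →
    (∀ i j, i ≠ j → z i ≠ z j ∧ z i ≠ P.conj • z j) →
    ∃ (g : Γ) (σ : Equiv.Perm (Fin 3)), ∀ i, g • y i = z (σ i) ∨ g • y i = P.conj • z (σ i)

end Pool.Agent.H62R2.CM6
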